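import Pool.Agent.Lib.MP_d470cf_nt.EK.Mertens

set_option autoImplicit false

open Finset Filter Topology Classical

namespace Pool.Agent.Lib.MP_d470cf_nt.EK

open Pool.Agent.Lib.MP_d470cf_nt Pool.Agent.Lib.MP_d470cf_nt.Loc

/-- `exp (i θ (n - L) / √L)` -/
noncomputable def ee (θ L : ℝ) (n : ℕ) : ℂ :=
  Complex.exp (((θ * (((n : ℝ) - L) / Real.sqrt L) : ℝ) : ℂ) * Complex.I)

/-- the rotation `exp (- i θ √L)` -/
noncomputable def kap (θ L : ℝ) : ℂ := Complex.exp (((-(θ * Real.sqrt L) : ℝ) : ℂ) * Complex.I)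

theorem norm_kap (θ L : ℝ) : ‖kap θ L‖ = 1 := Complex.norm_exp_ofReal_mul_I _

theorem norm_ee (θ L : ℝ) (n : ℕ) : ‖ee θ L n‖ = 1 := Complex.norm_exp_ofReal_mul_I _

theorem ee_eq (θ L : ℝ) (hL : 0 < L) (n : ℕ) : ee θ L n = kap θ L * (1 + zt θ L) ^ n := by
  unfold ee kap
  rw [one_add_zt, ← Complex.exp_nat_mul, ← Complex.exp_add]
  congr 1
  have hs : Real.sqrt L ≠ 0 := (Real.sqrt_pos.2 hL).ne'
  have hsq : Real.sqrt L * Real.sqrt L = L := Real.mul_self_sqrt hL.le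
  have e : θ * (((n : ℝ) - L) / Real.sqrt L) = -(θ * Real.sqrt L) + n * (θ / Real.sqrt L) := by
    field_simp
    rw [sq, hsq]
    ring
  rw [e]
  push_cast
  ring

theorem ee_sub (θ L : ℝ) (a b : ℕ) (hab : a ≤ b) :
    ‖ee θ L b - ee θ L a‖ ≤ |θ| / Real.sqrt L * ((b : ℝ) - a) := by
  unfold ee
  obtain ⟨x, hx⟩ : ∃ x : ℝ, x = θ * (((b : ℝ) - L) / Real.sqrt L) := ⟨_, rfl⟩
  obtain ⟨y, hy⟩ : ∃ y : ℝ, y = θ * (((a : ℝ) - L) / Real.sqrt L) := ⟨_, rfl⟩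
  rw [← hx, ← hy]
  have e : Complex.exp ((x : ℂ) * Complex.I) - Complex.exp ((y : ℂ) * Complex.I) =
      Complex.exp ((y : ℂ) * Complex.I) * (Complex.exp (Complex.I * ((x - y : ℝ) : ℂ)) - 1) := by
    rw [mul_sub, mul_one, ← Complex.exp_add]
    congr 2
    push_cast
    ring
  rw [e, norm_mul, Complex.norm_exp_ofReal_mul_I, one_mul]
  refine (Real.norm_exp_I_mul_ofReal_sub_one_le).trans ?_
  have e2 : x - y = θ * (((b : ℝ) - a) / Real.sqrt L) := by rw [hx, hy]; ring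
  have hab' : (0 : ℝ) ≤ (b : ℝ) - a := by
    have : (a : ℝ) ≤ b := by exact_mod_cast hab
    linarith
  rw [e2, Real.norm_eq_abs, abs_mul, abs_of_nonneg (div_nonneg hab' (Real.sqrt_nonneg L))]
  apply le_of_eq
  ring

/-- comparison of averages -/
theorem avg_compare (θ L : ℝ) (hL : 0 < L) (a w c : ℕ → ℕ) (h1 : ∀ t, a t ≤ w t)
    (h2 : ∀ t, w t ≤ a t + c t) (T : ℕ) (hT : 0 < T) (C : ℝ)
    (hC : ∑ t ∈ range T, (c t : ℝ) ≤ C * T) :
    ‖(∑ t ∈ range T, ee θ L (w t)) / (T : ℂ) - (∑ t ∈ range T, ee θ L (a t)) / (T : ℂ)‖ ≤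
      |θ| / Real.sqrt L * C := by
  have hTR : (0 : ℝ) < T := by exact_mod_cast hT
  have hs : 0 < Real.sqrt L := Real.sqrt_pos.2 hL
  rw [← sub_div, ← sum_sub_distrib, norm_div, Complex.norm_natCast, div_le_iff₀ hTR]
  refine (norm_sum_le _ _).trans ?_
  have h3 : ∑ t ∈ range T, ‖ee θ L (w t) - ee θ L (a t)‖ ≤
      ∑ t ∈ range T, |θ| / Real.sqrt L * (c t : ℝ) := by
    apply sum_le_sum
    intro t _
    refine (ee_sub θ L (a t) (w t) (h1 t)).trans ?_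
    apply mul_le_mul_of_nonneg_left _ (by positivity)
    have : (w t : ℝ) ≤ a t + c t := by exact_mod_cast h2 t
    linarith
  refine h3.trans ?_
  rw [← mul_sum, mul_assoc]
  exact mul_le_mul_of_nonneg_left hC (by positivity)

/-- the exponent -/
theorem exponent_bound (θ L μ : ℝ) (hL : 1 ≤ L) (hθ : |θ| / Real.sqrt L ≤ 1) (D : ℝ)
    (hD : |μ - L| ≤ D) :
    ‖zt θ L * (μ : ℂ) + ((-(θ * Real.sqrt L) : ℝ) : ℂ) * Complex.I - ((-(θ ^ 2 / 2) : ℝ) : ℂ)‖ ≤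
      |θ| / Real.sqrt L * D + |θ| ^ 3 / Real.sqrt L := by
  have hL0 : 0 < L := by linarith
  have hs : 0 < Real.sqrt L := Real.sqrt_pos.2 hL0
  have hsq : Real.sqrt L * Real.sqrt L = L := Real.mul_self_sqrt hL0.le
  obtain ⟨w, hw⟩ : ∃ w : ℂ, w = ((θ / Real.sqrt L : ℝ) : ℂ) * Complex.I := ⟨_, rfl⟩
  have hwn : ‖w‖ = |θ| / Real.sqrt L := by
    rw [hw, norm_mul, Complex.norm_I, mul_one, Complex.norm_real, Real.norm_eq_abs, abs_div,
      abs_of_pos hs]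
  have hz : zt θ L = Complex.exp w - 1 := by rw [hw]; rfl
  have h2 := exp_second w (by rw [hwn]; exact hθ)
  have hLw : (L : ℂ) * w = (((θ * Real.sqrt L) : ℝ) : ℂ) * Complex.I := by
    rw [hw, ← mul_assoc]
    congr 1
    rw [← Complex.ofReal_mul]
    congr 1
    field_simp
    rw [sq, hsq]
    ring
  have hLw2 : (L : ℂ) * (w ^ 2 / 2) = ((-(θ ^ 2 / 2) : ℝ) : ℂ) := by
    have e1 : w ^ 2 = ((-(θ ^ 2 / L) : ℝ) : ℂ) := by
      rw [hw, mul_pow, Complex.I_sq, ← Complex.ofReal_pow, div_pow, sq (Real.sqrt L), hsq]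
      push_cast
      ring
    rw [e1, ← Complex.ofReal_ofNat, ← Complex.ofReal_div, ← Complex.ofReal_mul]
    congr 1
    field_simp
  have e : zt θ L * (μ : ℂ) + ((-(θ * Real.sqrt L) : ℝ) : ℂ) * Complex.I -
      ((-(θ ^ 2 / 2) : ℝ) : ℂ) =
      zt θ L * ((μ - L : ℝ) : ℂ) + (L : ℂ) * (Complex.exp w - 1 - w - w ^ 2 / 2) := by
    rw [← hLw2]
    have e3 : ((-(θ * Real.sqrt L) : ℝ) : ℂ) * Complex.I = -((L : ℂ) * w) := by
      rw [hLw]; push_cast; ring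
    rw [e3, hz]
    push_cast
    ring
  rw [e]
  refine (norm_add_le _ _).trans ?_
  rw [norm_mul, norm_mul, Complex.norm_real, Complex.norm_real, Real.norm_eq_abs,
    Real.norm_eq_abs, abs_of_pos hL0]
  have h3 : ‖zt θ L‖ ≤ |θ| / Real.sqrt L := by
    have := norm_zt_le θ L
    rwa [abs_div, abs_of_pos hs] at this
  have h4 : L * ‖Complex.exp w - 1 - w - w ^ 2 / 2‖ ≤ |θ| ^ 3 / Real.sqrt L := by
    have h5 := mul_le_mul_of_nonneg_left h2 hL0.le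
    refine h5.trans (le_of_eq ?_)
    rw [hwn, div_pow]
    have e4 : Real.sqrt L ^ 3 = L * Real.sqrt L := by
      rw [← hsq]
      have : Real.sqrt (Real.sqrt L * Real.sqrt L) = Real.sqrt L := by rw [hsq]
      rw [this]; ring
    rw [e4]
    field_simp
  have h6 : ‖zt θ L‖ * |μ - L| ≤ |θ| / Real.sqrt L * D :=
    mul_le_mul h3 hD (abs_nonneg _) (by positivity)
  linarith

theorem norm_exp_zmu (θ L μ : ℝ) (hμ : 0 ≤ μ) : ‖Complex.exp (zt θ L * (μ : ℂ))‖ ≤ 1 := by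
  rw [Complex.norm_exp]
  rw [Real.exp_le_one_iff]
  have h1 : (zt θ L * (μ : ℂ)).re = (zt θ L).re * μ := by simp
  rw [h1]
  have h2 : (zt θ L).re ≤ 0 := by
    have h3 : (1 + zt θ L).re ≤ 1 := (Complex.re_le_norm _).trans (norm_one_add_zt θ L).le
    simp only [Complex.add_re, Complex.one_re] at h3
    linarith
  exact mul_nonpos_of_nonpos_of_nonneg h2 hμ

theorem exp_close (w v : ℂ) (hv : ‖Complex.exp v‖ ≤ 1) (h : ‖w - v‖ ≤ 1) :
    ‖Complex.exp w - Complex.exp v‖ ≤ 2 * ‖w - v‖ := by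
  have e : Complex.exp w - Complex.exp v = Complex.exp v * (Complex.exp (w - v) - 1) := by
    rw [mul_sub, mul_one, ← Complex.exp_add]; congr 2; ring
  rw [e, norm_mul]
  have h1 := Complex.norm_exp_sub_one_sub_id_le h
  have h2 : ‖Complex.exp (w - v) - 1‖ ≤ ‖Complex.exp (w - v) - 1 - (w - v)‖ + ‖w - v‖ := by
    have := norm_add_le (Complex.exp (w - v) - 1 - (w - v)) (w - v)
    simpa using this
  have h3 : ‖Complex.exp (w - v) - 1‖ ≤ 2 * ‖w - v‖ := by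
    nlinarith [norm_nonneg (w - v)]
  calc ‖Complex.exp v‖ * ‖Complex.exp (w - v) - 1‖ ≤ 1 * (2 * ‖w - v‖) :=
        mul_le_mul hv h3 (norm_nonneg _) zero_le_one
    _ = 2 * ‖w - v‖ := one_mul _

/-- the error function -/
noncomputable def GG (θ L : ℝ) : ℝ :=
  |θ| / Real.sqrt L * (Real.log (24 * L) + 17) + (2 * Real.exp (7 - L) + Real.exp (-L)) +
    (Real.exp (6 * (|θ| / Real.sqrt L) ^ 2) - 1) +
    2 * (|θ| / Real.sqrt L * (Real.log (24 * L) + 7) + |θ| ^ 3 / Real.sqrt L)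

theorem char_bound (θ L : ℝ) (N : ℤ) (hN : N = 1 ∨ N = -1) (hL : 1 ≤ L)
    (hθ : |θ| / Real.sqrt L ≤ Real.exp (-2)) (h24 : 24 * L ≤ Real.exp L)
    (hd : |θ| / Real.sqrt L * (Real.log (24 * L) + 7) + |θ| ^ 3 / Real.sqrt L ≤ 1)
    (x : ℝ) (hx : x = Real.exp (Real.exp L)) (T : ℕ) (hT : x ^ 2 ≤ T) :
    ‖(∑ t ∈ range T, ee θ L (wS N x t)) / (T : ℂ) - ((Real.exp (-(θ ^ 2 / 2)) : ℝ) : ℂ)‖ ≤
      GG θ L := by
  have hL0 : 0 < L := by linarith
  have hs : 0 < Real.sqrt L := Real.sqrt_pos.2 hL0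
  have hlogx : Real.log x = Real.exp L := by rw [hx, Real.log_exp]
  have hllx : Real.log (Real.log x) = L := by rw [hlogx, Real.log_exp]
  have hx1 : 1 ≤ x := by rw [hx]; exact Real.one_le_exp (Real.exp_pos L).le
  have hTR : (0 : ℝ) < T := lt_of_lt_of_le (by positivity) hT
  have hTN : 0 < T := by exact_mod_cast hTR
  -- the cut
  obtain ⟨y, hy⟩ : ∃ y : ℝ, y = Real.exp (Real.exp L / (24 * L)) := ⟨_, rfl⟩
  have hu1 : 1 ≤ Real.exp L / (24 * L) := by rw [le_div_iff₀ (by positivity)]; linarith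
  have hy2 : 2 ≤ y := by
    rw [hy]
    have h1 := Real.exp_one_gt_d9
    have h2 := Real.exp_le_exp.2 hu1
    linarith
  have hyx : y ≤ x := by
    rw [hy, hx]
    apply Real.exp_le_exp.2
    exact div_le_self (Real.exp_pos L).le (by linarith)
  have hlly : Real.log (Real.log y) = L - Real.log (24 * L) := by
    rw [hy, Real.log_exp, Real.log_div (Real.exp_pos L).ne' (by positivity), Real.log_exp]
  have hlog24 : 0 ≤ Real.log (24 * L) := Real.log_nonneg (by linarith)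
  -- pieces
  obtain ⟨S, hS⟩ : ∃ S : Finset ℕ, S = oddPrimes ⌊y⌋₊ := ⟨_, rfl⟩
  obtain ⟨z, hz⟩ : ∃ z : ℂ, z = zt θ L := ⟨_, rfl⟩
  have hzn : ‖z‖ ≤ |θ| / Real.sqrt L := by
    have := norm_zt_le θ L
    rwa [abs_div, abs_of_pos hs, ← hz] at this
  have hexp2 : Real.exp (-2) ≤ 1 := Real.exp_le_one_iff.2 (by norm_num)
  have hz1 : ‖z‖ ≤ 1 := hzn.trans (hθ.trans hexp2)
  have h1z : ‖1 + z‖ ≤ 1 := by rw [hz]; exact (norm_one_add_zt θ L).le
  -- A: passing from `w` to `a`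
  have A := avg_compare θ L hL0 (aS N S) (wS N x) (cS N x y)
    (fun t => by rw [hS]; exact (wS_bounds N x y hyx t).1)
    (fun t => by rw [hS]; exact (wS_bounds N x y hyx t).2) T hTN (Real.log (24 * L) + 17) (by
      have h1 := cS_bound N hN x y hy2 hyx T
      rw [hllx, hlly] at h1
      have h2 : x ^ 2 + 2 * x ≤ 3 * T := by
        have h3 : x ≤ x ^ 2 := by nlinarith
        linarith
      nlinarith)
  -- B: main comparison
  obtain ⟨m, hm⟩ : ∃ m : ℕ, m = ⌈L⌉₊ := ⟨_, rfl⟩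
  have hm1 : L ≤ m := by rw [hm]; exact Nat.le_ceil L
  have hm2 : (m : ℝ) < L + 1 := by rw [hm]; exact Nat.ceil_lt_add_one hL0.le
  obtain ⟨μ, hμ⟩ : ∃ μ : ℝ, μ = ∑ p ∈ S, dl N p := ⟨_, rfl⟩
  have hμmu : μ = mu N y := by rw [hμ, hS]; rfl
  have hμ0 : 0 ≤ μ := by rw [hμmu]; exact mu_nonneg N y
  have hμu : μ ≤ L - Real.log (24 * L) + 7 := by rw [hμmu, ← hlly]; exact mu_upper N y hy2
  have hμl : L - Real.log (24 * L) - 5 ≤ μ := by rw [hμmu, ← hlly]; exact mu_lower' N y hy2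
  have hP1 : 1 ≤ ⌊y⌋₊ := Nat.le_floor (by push_cast; linarith)
  have B := main_compare N S (fun p hp => (mem_oddPrimes.1 (hS ▸ hp)).2.1) ⌊y⌋₊ hP1
    (fun p hp => (mem_oddPrimes.1 (hS ▸ hp)).2.2) T hTN m z hz1 h1z
  rw [← hμ] at B
  have B1 : 2 * ‖z‖ ^ m * Real.exp μ ≤ 2 * Real.exp (7 - L) := by
    have h1 : ‖z‖ ^ m ≤ Real.exp (-2) ^ m :=
      pow_le_pow_left₀ (norm_nonneg _) (hzn.trans hθ) m
    have h2 : Real.exp (-2) ^ m = Real.exp (-(2 * m)) := by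
      rw [← Real.exp_nat_mul]; congr 1; ring
    have h3 : Real.exp (-(2 * (m : ℝ))) ≤ Real.exp (-(2 * L)) := Real.exp_le_exp.2 (by linarith)
    have h4 : Real.exp μ ≤ Real.exp (L + 7) := Real.exp_le_exp.2 (by linarith)
    have h5 : ‖z‖ ^ m * Real.exp μ ≤ Real.exp (-(2 * L)) * Real.exp (L + 7) := by
      apply mul_le_mul _ h4 (Real.exp_pos _).le (Real.exp_pos _).le
      rw [h2] at h1
      exact h1.trans h3
    rw [← Real.exp_add] at h5
    have h6 : -(2 * L) + (L + 7) = 7 - L := by ring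
    rw [h6] at h5
    linarith
  have B2 : (m + 1) * (⌊y⌋₊ : ℝ) ^ (3 * m) / T ≤ Real.exp (-L) := by
    have h1 : (⌊y⌋₊ : ℝ) ≤ y := Nat.floor_le (by linarith)
    have h2 : (⌊y⌋₊ : ℝ) ^ (3 * m) ≤ y ^ (3 * m) := pow_le_pow_left₀ (by positivity) h1 _
    have h3 : y ^ (3 * m) ≤ Real.exp (Real.exp L / 4) := by
      rw [hy, ← Real.exp_nat_mul]
      apply Real.exp_le_exp.2
      push_cast
      have h4 : 3 * (m : ℝ) ≤ 6 * L := by linarith
      calc 3 * (m : ℝ) * (Real.exp L / (24 * L)) ≤ 6 * L * (Real.exp L / (24 * L)) :=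
            mul_le_mul_of_nonneg_right h4 (by positivity)
        _ = Real.exp L / 4 := by field_simp; ring
    have h4 : (m : ℝ) + 1 ≤ Real.exp (Real.exp L) := by
      have h5 := Real.add_one_le_exp L
      have h6 := Real.add_one_le_exp (Real.exp L)
      linarith
    rw [div_le_iff₀ hTR]
    have h5 : (m + 1) * (⌊y⌋₊ : ℝ) ^ (3 * m) ≤
        Real.exp (Real.exp L) * Real.exp (Real.exp L / 4) :=
      mul_le_mul h4 (h2.trans h3) (by positivity) (Real.exp_pos _).le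
    refine h5.trans ?_
    have h6 : Real.exp (-L) * x ^ 2 ≤ Real.exp (-L) * T :=
      mul_le_mul_of_nonneg_left hT (Real.exp_pos _).le
    refine le_trans ?_ h6
    rw [hx, ← Real.exp_nat_mul, ← Real.exp_add, ← Real.exp_add]
    apply Real.exp_le_exp.2
    push_cast
    linarith
  -- C: product versus exponential
  have C := prod_exp S (dl N) (fun p _ => dl_nonneg N p) (fun p hp => by
    have hpp := (mem_oddPrimes.1 (hS ▸ hp)).2.1
    refine (dl_le N p hpp).trans ?_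
    rw [div_le_one (by exact_mod_cast hpp.pos)]
    exact_mod_cast hpp.one_lt.le) z hz1
  rw [← hμ] at C
  have hsum2 : ∑ p ∈ S, (dl N p) ^ 2 ≤ 1 := by
    have h1 : ∑ p ∈ S, (dl N p) ^ 2 ≤ ∑ k ∈ Finset.Icc 2 ⌊y⌋₊, 1 / (k : ℝ) ^ 2 := by
      have h2 : ∑ p ∈ S, (dl N p) ^ 2 ≤ ∑ p ∈ S, 1 / (p : ℝ) ^ 2 := by
        apply sum_le_sum
        intro p hp
        have h3 := dl_le N p (mem_oddPrimes.1 (hS ▸ hp)).2.1
        have h4 := pow_le_pow_left₀ (dl_nonneg N p) h3 2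
        rwa [div_pow, one_pow] at h4
      refine h2.trans ?_
      apply sum_le_sum_of_subset_of_nonneg
      · intro p hp
        rw [hS] at hp
        obtain ⟨-, hpp, hpx⟩ := mem_oddPrimes.1 hp
        exact mem_Icc.2 ⟨hpp.two_le, hpx⟩
      · intro k _ _; positivity
    have h6 := sum_inv_sq ⌊y⌋₊ hP1
    have h7 : (0 : ℝ) ≤ 1 / (⌊y⌋₊ : ℝ) := by positivity
    linarith
  have hnz : ‖Complex.exp (z * (μ : ℂ))‖ ≤ 1 := by rw [hz]; exact norm_exp_zmu θ L μ hμ0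
  have C1 : ‖∏ p ∈ S, (1 + z * (dl N p : ℂ)) - Complex.exp (z * (μ : ℂ))‖ ≤
      Real.exp (6 * (|θ| / Real.sqrt L) ^ 2) - 1 := by
    refine C.trans ?_
    have h1 : Real.exp (6 * ‖z‖ ^ 2 * ∑ p ∈ S, (dl N p) ^ 2) ≤
        Real.exp (6 * (|θ| / Real.sqrt L) ^ 2) := by
      apply Real.exp_le_exp.2
      have h2 : ‖z‖ ^ 2 ≤ (|θ| / Real.sqrt L) ^ 2 := pow_le_pow_left₀ (norm_nonneg _) hzn 2
      have h3 : 0 ≤ ∑ p ∈ S, (dl N p) ^ 2 := sum_nonneg (fun _ _ => sq_nonneg _)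
      have h4 : 6 * ‖z‖ ^ 2 * ∑ p ∈ S, (dl N p) ^ 2 ≤ 6 * ‖z‖ ^ 2 * 1 :=
        mul_le_mul_of_nonneg_left hsum2 (by positivity)
      linarith
    have h5 : 0 ≤ Real.exp (6 * ‖z‖ ^ 2 * ∑ p ∈ S, (dl N p) ^ 2) - 1 := by
      have : 0 ≤ 6 * ‖z‖ ^ 2 * ∑ p ∈ S, (dl N p) ^ 2 := by
        have h3 : 0 ≤ ∑ p ∈ S, (dl N p) ^ 2 := sum_nonneg (fun _ _ => sq_nonneg _)
        positivity
      have := Real.one_le_exp this
      linarith
    calc ‖Complex.exp (z * (μ : ℂ))‖ * (Real.exp (6 * ‖z‖ ^ 2 * ∑ p ∈ S, (dl N p) ^ 2) - 1)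
        ≤ 1 * (Real.exp (6 * ‖z‖ ^ 2 * ∑ p ∈ S, (dl N p) ^ 2) - 1) :=
          mul_le_mul_of_nonneg_right hnz h5
      _ ≤ _ := by linarith
  -- D: the exponent
  have hθ1 : |θ| / Real.sqrt L ≤ 1 := hθ.trans hexp2
  have hDD : |μ - L| ≤ Real.log (24 * L) + 7 := by rw [abs_le]; constructor <;> linarith
  have D := exponent_bound θ L μ hL hθ1 _ hDD
  have hv : ‖Complex.exp ((-(θ ^ 2 / 2) : ℝ) : ℂ)‖ ≤ 1 := by
    rw [Complex.norm_exp_ofReal, Real.exp_le_one_iff]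
    have := sq_nonneg θ
    linarith
  have D1 := exp_close _ _ hv (D.trans hd)
  rw [Complex.exp_add] at D1
  -- combine
  have e1 : (∑ t ∈ range T, ee θ L (aS N S t)) / (T : ℂ) =
      kap θ L * ((∑ t ∈ range T, (1 + z) ^ (aS N S t)) / (T : ℂ)) := by
    simp only [ee_eq θ L hL0, ← hz]
    rw [← mul_sum]
    ring
  have e2 : ((Real.exp (-(θ ^ 2 / 2)) : ℝ) : ℂ) = Complex.exp ((-(θ ^ 2 / 2) : ℝ) : ℂ) :=
    Complex.ofReal_exp _
  have e3 : (∑ t ∈ range T, ee θ L (wS N x t)) / (T : ℂ) -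
      ((Real.exp (-(θ ^ 2 / 2)) : ℝ) : ℂ) =
      ((∑ t ∈ range T, ee θ L (wS N x t)) / (T : ℂ) -
        (∑ t ∈ range T, ee θ L (aS N S t)) / (T : ℂ)) +
      kap θ L * ((∑ t ∈ range T, (1 + z) ^ (aS N S t)) / (T : ℂ) -
        ∏ p ∈ S, (1 + z * (dl N p : ℂ))) +
      kap θ L * (∏ p ∈ S, (1 + z * (dl N p : ℂ)) - Complex.exp (z * (μ : ℂ))) +
      (Complex.exp (zt θ L * (μ : ℂ)) *
        Complex.exp (((-(θ * Real.sqrt L) : ℝ) : ℂ) * Complex.I) -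
        Complex.exp ((-(θ ^ 2 / 2) : ℝ) : ℂ)) := by
    rw [e1, e2, hz]
    unfold kap
    ring
  rw [e3]
  refine (norm_add_le _ _).trans ?_
  refine (add_le_add_left (norm_add_le _ _) _).trans ?_
  refine (add_le_add_left (add_le_add_left (norm_add_le _ _) _) _).trans ?_
  rw [norm_mul, norm_mul, norm_kap, one_mul, one_mul]
  unfold GG
  have B' := B.trans (add_le_add B1 B2)
  have D2 := D1.trans (mul_le_mul_of_nonneg_left D (by norm_num : (0 : ℝ) ≤ 2))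
  linarith

theorem GG_tendsto (θ : ℝ) : Tendsto (GG θ) atTop (𝓝 0) ∧
    Tendsto (fun L : ℝ => |θ| / Real.sqrt L) atTop (𝓝 0) ∧
    Tendsto (fun L : ℝ => |θ| / Real.sqrt L * (Real.log (24 * L) + 7) + |θ| ^ 3 / Real.sqrt L)
      atTop (𝓝 0) := by
  have hsq : Tendsto (fun L : ℝ => (Real.sqrt L)⁻¹) atTop (𝓝 0) :=
    tendsto_inv_atTop_zero.comp Real.tendsto_sqrt_atTop
  have hlog : Tendsto (fun L : ℝ => Real.log L / Real.sqrt L) atTop (𝓝 0) := by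
    have := (isLittleO_log_rpow_atTop (show (0 : ℝ) < 1 / 2 by norm_num)).tendsto_div_nhds_zero
    refine this.congr (fun L => ?_)
    rw [Real.sqrt_eq_rpow]
  have h1 : Tendsto (fun L : ℝ => |θ| / Real.sqrt L) atTop (𝓝 0) := by
    have := hsq.const_mul |θ|
    rw [mul_zero] at this
    exact this.congr (fun L => by rw [div_eq_mul_inv])
  have h2 : ∀ c : ℝ, Tendsto (fun L : ℝ => |θ| / Real.sqrt L * (Real.log (24 * L) + c)) atTop
      (𝓝 0) := by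
    intro c
    have h3 := (hlog.const_mul |θ|).add (h1.mul_const (Real.log 24 + c))
    rw [mul_zero, zero_mul, add_zero] at h3
    refine h3.congr' ?_
    filter_upwards [eventually_gt_atTop 0] with L hL
    rw [Real.log_mul (by norm_num) hL.ne']
    ring
  have h4 : Tendsto (fun L : ℝ => |θ| ^ 3 / Real.sqrt L) atTop (𝓝 0) := by
    have := hsq.const_mul (|θ| ^ 3)
    rw [mul_zero] at this
    exact this.congr (fun L => by rw [div_eq_mul_inv])
  have h5 : Tendsto (fun L : ℝ => |θ| / Real.sqrt L * (Real.log (24 * L) + 7) +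
      |θ| ^ 3 / Real.sqrt L) atTop (𝓝 0) := by
    have := (h2 7).add h4
    rwa [add_zero] at this
  refine ⟨?_, h1, h5⟩
  have h6 : Tendsto (fun L : ℝ => Real.exp (-L)) atTop (𝓝 0) :=
    Real.tendsto_exp_neg_atTop_nhds_zero
  have h7 : Tendsto (fun L : ℝ => 2 * Real.exp (7 - L) + Real.exp (-L)) atTop (𝓝 0) := by
    have := (h6.const_mul (2 * Real.exp 7)).add h6
    rw [mul_zero, add_zero] at this
    refine this.congr (fun L => ?_)
    rw [sub_eq_add_neg, Real.exp_add]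
    ring
  have h8 : Tendsto (fun L : ℝ => Real.exp (6 * (|θ| / Real.sqrt L) ^ 2) - 1) atTop (𝓝 0) := by
    have h9 : Tendsto (fun L : ℝ => 6 * (|θ| / Real.sqrt L) ^ 2) atTop (𝓝 (6 * 0 ^ 2)) :=
      (h1.pow 2).const_mul 6
    have h10 := (Real.continuous_exp.tendsto _).comp h9
    have h11 := h10.sub_const 1
    simpa using h11
  have h12 := (((h2 17).add h7).add h8).add (h5.const_mul 2)
  rw [mul_zero, add_zero, add_zero, add_zero] at h12
  exact h12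

theorem char_eventually (θ ε : ℝ) (hε : 0 < ε) : ∀ᶠ L in atTop, ∀ N : ℤ, (N = 1 ∨ N = -1) →
    ∀ x : ℝ, x = Real.exp (Real.exp L) → ∀ T : ℕ, x ^ 2 ≤ T →
    ‖(∑ t ∈ range T, ee θ L (wS N x t)) / (T : ℂ) - ((Real.exp (-(θ ^ 2 / 2)) : ℝ) : ℂ)‖ ≤
      ε := by
  obtain ⟨g1, g2, g3⟩ := GG_tendsto θ
  have h24 : ∀ᶠ L : ℝ in atTop, 24 * L ≤ Real.exp L := by
    have h1 : Tendsto (fun L : ℝ => Real.exp L / L ^ 1) atTop atTop :=
      Real.tendsto_exp_div_pow_atTop 1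
    filter_upwards [h1.eventually_ge_atTop 24, eventually_gt_atTop 0] with L hL hL0
    rw [pow_one, le_div_iff₀ hL0] at hL
    exact hL
  filter_upwards [eventually_ge_atTop 1, g1.eventually_le_const hε,
    g2.eventually_le_const (Real.exp_pos (-2)), g3.eventually_le_const one_pos, h24] with
    L hL hG hθ hd h24' N hN x hx T hT
  exact (char_bound θ L N hN hL hθ h24' hd x hx T hT).trans hG

end Pool.Agent.Lib.MP_d470cf_nt.EK
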