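import Mathlib

set_option autoImplicit false

open Finset Filter Topology MeasureTheory ProbabilityTheory
open scoped ENNReal

namespace Pool.Agent.Lib.MP_d470cf_nt.EK

/-- the uniform probability measure on the values of `X` on `s` -/
noncomputable def emp {ι : Type*} (s : Finset ι) (X : ι → ℝ) : Measure ℝ :=
  ((s.card : ℝ≥0∞)⁻¹) • ∑ i ∈ s, Measure.dirac (X i)

theorem emp_prob {ι : Type*} (s : Finset ι) (hs : s.Nonempty) (X : ι → ℝ) :
    IsProbabilityMeasure (emp s X) := by
  constructor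
  unfold emp
  rw [Measure.smul_apply, Measure.finsetSum_apply]
  simp only [measure_univ, sum_const, nsmul_eq_mul, mul_one, smul_eq_mul]
  exact ENNReal.inv_mul_cancel (by exact_mod_cast hs.card_pos.ne') (ENNReal.natCast_ne_top _)

theorem emp_charFun {ι : Type*} (s : Finset ι) (X : ι → ℝ) (θ : ℝ) :
    charFun (emp s X) θ =
      (∑ i ∈ s, Complex.exp (((θ * X i : ℝ) : ℂ) * Complex.I)) / (s.card : ℂ) := by
  rw [charFun_apply_real]
  unfold emp
  rw [integral_smul_measure, integral_finsetSum_measure]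
  · simp only [integral_dirac]
    rw [ENNReal.toReal_inv, ENNReal.toReal_natCast]
    rw [div_eq_inv_mul]
    simp [Complex.real_smul]
  · intro i _
    exact integrable_dirac (by simp)

theorem emp_Iic {ι : Type*} (s : Finset ι) (X : ι → ℝ) (u : ℝ) :
    (emp s X (Set.Iic u)).toReal = ((s.filter (fun i => X i ≤ u)).card : ℝ) / s.card := by
  classical
  unfold emp
  rw [Measure.smul_apply, Measure.finsetSum_apply, smul_eq_mul, ENNReal.toReal_mul,
    ENNReal.toReal_inv, ENNReal.toReal_natCast]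
  have h1 : ∑ i ∈ s, (Measure.dirac (X i)) (Set.Iic u) = ((s.filter (fun i => X i ≤ u)).card : ℝ≥0∞) := by
    rw [card_filter]
    push_cast
    apply sum_congr rfl
    intro i _
    rw [Measure.dirac_apply' _ measurableSet_Iic]
    by_cases h : X i ≤ u <;> simp [h]
  rw [h1, ENNReal.toReal_natCast, div_eq_inv_mul]

/-- the standard normal distribution function -/
noncomputable def Phi (u : ℝ) : ℝ :=
  ∫ s in Set.Iic u, Real.exp (-(s ^ 2 / 2)) / Real.sqrt (2 * Real.pi)

theorem gaussian_Iic (u : ℝ) : (gaussianReal 0 1 (Set.Iic u)).toReal = Phi u := by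
  rw [gaussianReal_apply_eq_integral _ one_ne_zero, ENNReal.toReal_ofReal]
  · unfold Phi
    apply setIntegral_congr_fun measurableSet_Iic
    intro s _
    simp only [gaussianPDFReal]
    have e1 : Real.sqrt (2 * Real.pi * ((1 : NNReal) : ℝ)) = Real.sqrt (2 * Real.pi) := by simp
    have e2 : -(s - 0) ^ 2 / (2 * ((1 : NNReal) : ℝ)) = -(s ^ 2 / 2) := by
      rw [NNReal.coe_one]; ring
    rw [e1, e2, inv_mul_eq_div]
  · exact setIntegral_nonneg measurableSet_Iic (fun x _ => gaussianPDFReal_nonneg _ _ _)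

theorem levy_seq {ι : Type*} (s : ℕ → Finset ι) (hs : ∀ n, (s n).Nonempty) (X : ℕ → ι → ℝ)
    (h : ∀ θ : ℝ, Tendsto (fun n => (∑ i ∈ s n, Complex.exp (((θ * X n i : ℝ) : ℂ) * Complex.I)) /
      ((s n).card : ℂ)) atTop (𝓝 ((Real.exp (-(θ ^ 2 / 2)) : ℝ) : ℂ))) (u : ℝ) :
    Tendsto (fun n => (((s n).filter (fun i => X n i ≤ u)).card : ℝ) / ((s n).card : ℝ)) atTop
      (𝓝 (Phi u)) := by
  let μ : ℕ → ProbabilityMeasure ℝ := fun n => ⟨emp (s n) (X n), emp_prob (s n) (hs n) (X n)⟩
  let ν : ProbabilityMeasure ℝ := ⟨gaussianReal 0 1, inferInstance⟩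
  have hconv : Tendsto μ atTop (𝓝 ν) := by
    rw [ProbabilityMeasure.tendsto_iff_tendsto_charFun]
    intro θ
    have e1 : charFun (ν : Measure ℝ) θ = ((Real.exp (-(θ ^ 2 / 2)) : ℝ) : ℂ) := by
      show charFun (gaussianReal 0 1) θ = _
      rw [charFun_gaussianReal]
      push_cast
      congr 1
      simp
    rw [e1]
    refine (h θ).congr (fun n => ?_)
    exact (emp_charFun (s n) (X n) θ).symm
  have hfr : (ν : Measure ℝ) (frontier (Set.Iic u)) = 0 := by
    rw [frontier_Iic]
    have : NullSingletonClass (gaussianReal 0 1) := nullSingletonClass_gaussianReal one_ne_zero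
    show gaussianReal 0 1 {u} = 0
    exact measure_singleton u
  have h2 := ProbabilityMeasure.tendsto_measure_of_null_frontier_of_tendsto' hconv hfr
  have h3 := (ENNReal.tendsto_toReal (measure_ne_top (ν : Measure ℝ) _)).comp h2
  have e2 : ((ν : Measure ℝ) (Set.Iic u)).toReal = Phi u := gaussian_Iic u
  rw [e2] at h3
  refine h3.congr (fun n => ?_)
  exact emp_Iic (s n) (X n) u

/-- Levy's theorem for finite families indexed by a real parameter. -/
theorem levy_real {ι : Type*} (s : ℝ → Finset ι) (hs : ∀ᶠ Y in atTop, (s Y).Nonempty)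
    (X : ℝ → ι → ℝ)
    (h : ∀ θ : ℝ, Tendsto (fun Y => (∑ i ∈ s Y, Complex.exp (((θ * X Y i : ℝ) : ℂ) * Complex.I)) /
      ((s Y).card : ℂ)) atTop (𝓝 ((Real.exp (-(θ ^ 2 / 2)) : ℝ) : ℂ))) (u : ℝ) :
    Tendsto (fun Y => (((s Y).filter (fun i => X Y i ≤ u)).card : ℝ) / ((s Y).card : ℝ)) atTop
      (𝓝 (Phi u)) := by
  classical
  apply tendsto_of_seq_tendsto
  intro y hy
  have hne := hy.eventually hs
  obtain ⟨n0, hn0⟩ := hne.exists_forall_of_atTop
  have hseq := levy_seq (fun n => s (y (n + n0))) (fun n => hn0 (n + n0) (Nat.le_add_left _ _))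
    (fun n => X (y (n + n0)))
    (fun θ => ((h θ).comp hy).comp (tendsto_add_atTop_nat n0)) u
  exact (tendsto_add_atTop_iff_nat n0).1 hseq

end Pool.Agent.Lib.MP_d470cf_nt.EK
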