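import Pool.Agent.Lib.MP_d470cf_nt.EK.Moments
import Pool.Agent.Lib.MP_d470cf_nt.Bad
import Pool.Agent.Lib.MP_0da313_nt.MT.Mertens

set_option autoImplicit false

open Finset Filter Topology Classical

namespace Pool.Agent.Lib.MP_d470cf_nt.EK

open Pool.Agent.Lib.MP_d470cf_nt Pool.Agent.Lib.MP_d470cf_nt.Loc Pool.Agent.MP89da58

theorem sum_inv_upper (P : ℕ) (hP : 2 ≤ P) :
    ∑ p ∈ oddPrimes P, 1 / (p : ℝ) ≤ Real.log (Real.log P) + 7 := by
  have h1 := Pool.Agent.MT.mertens P hP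
  have hk := Pool.Agent.MT.kapD_pos P
  have hlog : 0 < Real.log P := Real.log_pos (by exact_mod_cast hP)
  have h2 : Real.log (kapD P) = ∑ p ∈ (Finset.Icc 1 P).filter Nat.Prime, Real.log (1 - 1 / (p : ℝ)) := by
    unfold kapD
    rw [Real.log_prod]
    intro p hp
    have hp2 : (2 : ℝ) ≤ p := by exact_mod_cast (Finset.mem_filter.1 hp).2.two_le
    have : 1 / (p : ℝ) ≤ 1 / 2 := one_div_le_one_div_of_le (by norm_num) hp2
    have h3 : (0 : ℝ) < 1 - 1 / (p : ℝ) := by linarith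
    exact h3.ne'
  have h3 : Real.log (kapD P) ≤ -∑ p ∈ (Finset.Icc 1 P).filter Nat.Prime, 1 / (p : ℝ) := by
    rw [h2, ← Finset.sum_neg_distrib]
    apply Finset.sum_le_sum
    intro p hp
    have hp2 : (2 : ℝ) ≤ p := by exact_mod_cast (Finset.mem_filter.1 hp).2.two_le
    have : 1 / (p : ℝ) ≤ 1 / 2 := one_div_le_one_div_of_le (by norm_num) hp2
    have := Real.log_le_sub_one_of_pos (show (0 : ℝ) < 1 - 1 / (p : ℝ) by linarith)
    linarith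
  have h4 : -(Real.log 1000 + Real.log (Real.log P)) ≤ Real.log (kapD P) := by
    have h5 : Real.log 1 ≤ Real.log (1000 * kapD P * Real.log P) :=
      Real.log_le_log one_pos h1
    rw [Real.log_one, Real.log_mul (by positivity) hlog.ne', Real.log_mul (by norm_num) hk.ne'] at h5
    linarith
  have h5 : Real.log 1000 ≤ 7 := by
    have e : (1000 : ℝ) ≤ Real.exp 7 := by
      have h6 := Real.exp_one_gt_d9
      have h7 : Real.exp 7 = Real.exp 1 ^ 7 := by rw [← Real.exp_nat_mul]; norm_num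
      rw [h7]
      have h8 : (2.7 : ℝ) ^ 7 ≤ Real.exp 1 ^ 7 := pow_le_pow_left₀ (by norm_num) (by linarith) 7
      refine le_trans ?_ h8
      norm_num
    rw [Real.log_le_iff_le_exp (by norm_num)]
    exact e
  have h6 : ∑ p ∈ oddPrimes P, 1 / (p : ℝ) ≤
      ∑ p ∈ (Finset.Icc 1 P).filter Nat.Prime, 1 / (p : ℝ) := by
    apply Finset.sum_le_sum_of_subset_of_nonneg
    · intro p hp
      obtain ⟨h1, h2, h3⟩ := mem_oddPrimes.1 hp
      exact mem_filter.2 ⟨mem_Icc.2 ⟨h2.one_lt.le, h3⟩, h2⟩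
    · intro p _ _; positivity
  linarith

/-- mean of the number of conditions satisfied -/
noncomputable def mu (N : ℤ) (x : ℝ) : ℝ := ∑ p ∈ oddPrimes ⌊x⌋₊, dl N p

theorem mu_nonneg (N : ℤ) (x : ℝ) : 0 ≤ mu N x := sum_nonneg (fun _ _ => dl_nonneg _ _)

theorem dl_sum_le (N : ℤ) (P : ℕ) : ∑ p ∈ oddPrimes P, dl N p ≤ ∑ p ∈ oddPrimes P, 1 / (p : ℝ) :=
  sum_le_sum (fun p hp => dl_le N p (mem_oddPrimes.1 hp).2.1)

theorem loglog_floor (x : ℝ) (hx : 2 ≤ x) :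
    Real.log (Real.log (⌊x⌋₊ : ℝ)) ≤ Real.log (Real.log x) := by
  have h2 : 2 ≤ ⌊x⌋₊ := Nat.le_floor (by exact_mod_cast hx)
  have h2' : (2 : ℝ) ≤ ⌊x⌋₊ := by exact_mod_cast h2
  apply Real.log_le_log (Real.log_pos (by linarith))
  exact Real.log_le_log (by linarith) (Nat.floor_le (by linarith))

theorem mu_upper (N : ℤ) (x : ℝ) (hx : 2 ≤ x) : mu N x ≤ Real.log (Real.log x) + 7 := by
  have h2 : 2 ≤ ⌊x⌋₊ := Nat.le_floor (by exact_mod_cast hx)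
  have h3 := loglog_floor x hx
  have h4 := sum_inv_upper ⌊x⌋₊ h2
  have h5 := dl_sum_le N ⌊x⌋₊
  unfold mu
  linarith

theorem mu_lower' (N : ℤ) (x : ℝ) (hx : 2 ≤ x) : Real.log (Real.log x) - 5 ≤ mu N x := by
  have h2 : 2 ≤ ⌊x⌋₊ := Nat.le_floor (by exact_mod_cast hx)
  have h3 := mu_lower N ⌊x⌋₊ h2
  have h4 : Real.log (Real.log x) ≤ Real.log (Real.log ((⌊x⌋₊ + 1 : ℕ) : ℝ)) := by
    apply Real.log_le_log (Real.log_pos (by linarith))
    apply Real.log_le_log (by linarith)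
    push_cast
    exact (Nat.lt_floor_add_one x).le
  have h5 : mu N x = ∑ p ∈ oddPrimes ⌊x⌋₊, (nu N p : ℝ) / (p : ℝ) ^ 2 := rfl
  rw [h5]
  linarith

/-- reciprocals of primes in an interval -/
theorem interval_sum (x y : ℝ) (hy : 2 ≤ y) (hyx : y ≤ x) :
    ∑ p ∈ (oddPrimes ⌊x⌋₊).filter (fun p => p ∉ oddPrimes ⌊y⌋₊), 1 / (p : ℝ) ≤
      Real.log (Real.log x) - Real.log (Real.log y) + 12 := by
  have h1 := Finset.sum_filter_add_sum_filter_not (oddPrimes ⌊x⌋₊) (fun p => p ∈ oddPrimes ⌊y⌋₊)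
    (fun p => 1 / (p : ℝ))
  have hsub : (oddPrimes ⌊x⌋₊).filter (fun p => p ∈ oddPrimes ⌊y⌋₊) = oddPrimes ⌊y⌋₊ := by
    ext p
    rw [mem_filter]
    constructor
    · exact fun h => h.2
    · intro h
      refine ⟨?_, h⟩
      obtain ⟨h1, h2, h3⟩ := mem_oddPrimes.1 h
      exact mem_oddPrimes.2 ⟨h1, h2, h3.trans (Nat.floor_mono hyx)⟩
  rw [hsub] at h1
  have h2 := sum_inv_upper ⌊x⌋₊ (Nat.le_floor (by exact_mod_cast hy.trans hyx))
  have h3 := loglog_floor x (hy.trans hyx)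
  have h4 := mu_lower' 1 y hy
  have h5 := dl_sum_le 1 ⌊y⌋₊
  unfold mu at h4
  linarith

theorem cnt_upper (N : ℤ) (p : ℕ) (hp : p.Prime) (T : ℕ) :
    ∑ t ∈ range T, ind (ACond N p t) ≤ T * (1 / (p : ℝ)) + p := by
  have h1 := count_periodic_upper (ACond N p) (p ^ 2) (pow_pos hp.pos 2) (ACond_periodic N p hp) T
  rw [ACond_count N p hp] at h1
  have e : ∑ t ∈ range T, ind (ACond N p t) = (Nat.count (ACond N p) T : ℝ) := by
    rw [Nat.count_eq_card_filter_range, card_filter]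
    push_cast
    apply sum_congr rfl
    intro x _
    unfold ind
    split_ifs <;> rfl
  rw [e]
  refine h1.trans ?_
  have hp0 : (0 : ℝ) < p := by exact_mod_cast hp.pos
  have h2 : (nu N p : ℝ) ≤ p := by exact_mod_cast nu_le N p
  have h3 : ((T : ℝ) / ((p ^ 2 : ℕ) : ℝ) + 1) * nu N p ≤ ((T : ℝ) / ((p ^ 2 : ℕ) : ℝ) + 1) * p :=
    mul_le_mul_of_nonneg_left h2 (by positivity)
  refine h3.trans (le_of_eq ?_)
  push_cast
  field_simp

theorem cnt4_upper (N : ℤ) (hN : N = 1 ∨ N = -1) (p : ℕ) (hp : p.Prime) (hp2 : p ≠ 2) (T : ℕ) :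
    ∑ t ∈ range T, ind ((p : ℤ) ^ 4 ∣ (t : ℤ) ^ 2 - 4 * N) ≤ 2 * T * (1 / (p : ℝ) ^ 2) + 2 := by
  have hper : Function.Periodic (fun t : ℕ => (p : ℤ) ^ 4 ∣ (t : ℤ) ^ 2 - 4 * N) (p ^ 4) := by
    intro t
    exact propext (periodic_dvd N p 4 4 (le_refl _) t)
  have h1 := count_periodic_upper (fun t : ℕ => (p : ℤ) ^ 4 ∣ (t : ℤ) ^ 2 - 4 * N) (p ^ 4)
    (pow_pos hp.pos 4) hper T
  have h2 : (Nat.count (fun t : ℕ => (p : ℤ) ^ 4 ∣ (t : ℤ) ^ 2 - 4 * N) (p ^ 4) : ℝ) ≤ 2 := by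
    rw [Nat.count_eq_card_filter_range]
    have := root_card N hN p hp hp2 4 (by norm_num)
    have e : ((range (p ^ 4)).filter (fun t : ℕ => (p : ℤ) ^ 4 ∣ (t : ℤ) ^ 2 - 4 * N)).card =
      sqrts N p := by
      rw [← this]
    have e2 := sqrts_le N p
    calc (((range (p ^ 4)).filter (fun t : ℕ => (p : ℤ) ^ 4 ∣ (t : ℤ) ^ 2 - 4 * N)).card : ℝ)
        = sqrts N p := by exact_mod_cast e
      _ ≤ 2 := e2
  have e : ∑ t ∈ range T, ind ((p : ℤ) ^ 4 ∣ (t : ℤ) ^ 2 - 4 * N) =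
      (Nat.count (fun t : ℕ => (p : ℤ) ^ 4 ∣ (t : ℤ) ^ 2 - 4 * N) T : ℝ) := by
    rw [Nat.count_eq_card_filter_range, card_filter]
    push_cast
    apply sum_congr rfl
    intro x _
    unfold ind
    split_ifs <;> rfl
  rw [e]
  refine h1.trans ?_
  have hp1 : (1 : ℝ) ≤ p := by exact_mod_cast hp.one_lt.le
  have hp0 : (0 : ℝ) < p := by linarith
  have h3 := mul_le_mul_of_nonneg_left h2 (show (0 : ℝ) ≤ (T : ℝ) / ((p ^ 4 : ℕ) : ℝ) + 1 by positivity)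
  refine h3.trans ?_
  have h4 : (T : ℝ) / ((p ^ 4 : ℕ) : ℝ) ≤ T * (1 / (p : ℝ) ^ 2) := by
    rw [mul_one_div]
    apply div_le_div_of_nonneg_left (by positivity) (by positivity)
    push_cast
    exact pow_le_pow_right₀ hp1 (by norm_num)
  linarith

/-- the correction term -/
noncomputable def cS (N : ℤ) (x y : ℝ) (t : ℕ) : ℕ :=
  ((oddPrimes ⌊x⌋₊).filter (fun p => p ∉ oddPrimes ⌊y⌋₊ ∧ ACond N p t)).card +
    ((oddPrimes ⌊x⌋₊).filter (fun p : ℕ => (p : ℤ) ^ 4 ∣ (t : ℤ) ^ 2 - 4 * N)).card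

/-- the number of local conditions satisfied up to `x` -/
noncomputable def wS (N : ℤ) (x : ℝ) (t : ℕ) : ℕ :=
  ((oddPrimes ⌊x⌋₊).filter (fun p => LC N p t)).card

theorem wS_bounds (N : ℤ) (x y : ℝ) (hyx : y ≤ x) (t : ℕ) :
    aS N (oddPrimes ⌊y⌋₊) t ≤ wS N x t ∧
      wS N x t ≤ aS N (oddPrimes ⌊y⌋₊) t + cS N x y t := by
  unfold aS wS cS
  constructor
  · apply card_le_card
    intro p hp
    rw [mem_filter] at hp ⊢
    obtain ⟨h1, h2, h3⟩ := mem_oddPrimes.1 hp.1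
    exact ⟨mem_oddPrimes.2 ⟨h1, h2, h3.trans (Nat.floor_mono hyx)⟩, Or.inl hp.2⟩
  · have hsub : (oddPrimes ⌊x⌋₊).filter (fun p => LC N p t) ⊆
        (oddPrimes ⌊y⌋₊).filter (fun p => ACond N p t) ∪
        ((oddPrimes ⌊x⌋₊).filter (fun p => p ∉ oddPrimes ⌊y⌋₊ ∧ ACond N p t) ∪
          (oddPrimes ⌊x⌋₊).filter (fun p : ℕ => (p : ℤ) ^ 4 ∣ (t : ℤ) ^ 2 - 4 * N)) := by
      intro p hp
      rw [mem_filter] at hp
      rw [mem_union, mem_union, mem_filter, mem_filter, mem_filter]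
      rcases hp.2 with h | ⟨j, j1, j2, -⟩
      · by_cases hy : p ∈ oddPrimes ⌊y⌋₊
        · exact Or.inl ⟨hy, h⟩
        · exact Or.inr (Or.inl ⟨hp.1, hy, h⟩)
      · exact Or.inr (Or.inr ⟨hp.1, (pow_dvd_pow _ (by omega)).trans j2⟩)
    refine (card_le_card hsub).trans ((Finset.card_union_le _ _).trans ?_)
    apply Nat.add_le_add_left
    exact Finset.card_union_le _ _

theorem card_filter_ind (S : Finset ℕ) (Q : ℕ → Prop) [DecidablePred Q] :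
    ((S.filter Q).card : ℝ) = ∑ p ∈ S, ind (Q p) := by
  rw [card_filter]
  push_cast
  apply sum_congr rfl
  intro x _
  unfold ind
  split_ifs <;> rfl

theorem card_oddPrimes_le (x : ℝ) (hx : 0 ≤ x) : ((oddPrimes ⌊x⌋₊).card : ℝ) ≤ x := by
  have h2 : oddPrimes ⌊x⌋₊ ⊆ Finset.Icc 1 ⌊x⌋₊ := by
    intro p hp
    obtain ⟨-, hpp, h⟩ := mem_oddPrimes.1 hp
    rw [Finset.mem_Icc]
    exact ⟨hpp.one_lt.le, h⟩
  have h3 := Finset.card_le_card h2
  rw [Nat.card_Icc, Nat.add_sub_cancel] at h3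
  have h4 : ((oddPrimes ⌊x⌋₊).card : ℝ) ≤ (⌊x⌋₊ : ℝ) := by exact_mod_cast h3
  exact h4.trans (Nat.floor_le hx)

theorem cS_bound (N : ℤ) (hN : N = 1 ∨ N = -1) (x y : ℝ) (hy : 2 ≤ y) (hyx : y ≤ x) (T : ℕ) :
    ∑ t ∈ range T, (cS N x y t : ℝ) ≤
      T * (Real.log (Real.log x) - Real.log (Real.log y) + 14) + x ^ 2 + 2 * x := by
  have hx2 : 2 ≤ x := hy.trans hyx
  have hx0 : 0 ≤ x := by linarith
  have hT0 : (0 : ℝ) ≤ T := Nat.cast_nonneg T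
  have hcard := card_oddPrimes_le x hx0
  unfold cS
  push_cast
  rw [sum_add_distrib]
  have h1 : ∑ t ∈ range T,
      (((oddPrimes ⌊x⌋₊).filter (fun p => p ∉ oddPrimes ⌊y⌋₊ ∧ ACond N p t)).card : ℝ) ≤
      T * (Real.log (Real.log x) - Real.log (Real.log y) + 12) + x ^ 2 := by
    have e : ∀ t, (((oddPrimes ⌊x⌋₊).filter (fun p => p ∉ oddPrimes ⌊y⌋₊ ∧ ACond N p t)).card : ℝ) =
        ∑ p ∈ (oddPrimes ⌊x⌋₊).filter (fun p => p ∉ oddPrimes ⌊y⌋₊), ind (ACond N p t) := by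
      intro t
      rw [← filter_filter, card_filter_ind]
    simp only [e]
    rw [sum_comm]
    have h2 : ∑ p ∈ (oddPrimes ⌊x⌋₊).filter (fun p => p ∉ oddPrimes ⌊y⌋₊),
        ∑ t ∈ range T, ind (ACond N p t) ≤
        ∑ p ∈ (oddPrimes ⌊x⌋₊).filter (fun p => p ∉ oddPrimes ⌊y⌋₊), (T * (1 / (p : ℝ)) + x) := by
      apply sum_le_sum
      intro p hp
      obtain ⟨-, hpp, hpx⟩ := mem_oddPrimes.1 (mem_filter.1 hp).1
      have h3 := cnt_upper N p hpp T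
      have h4 : (p : ℝ) ≤ x := (Nat.le_floor_iff hx0).1 hpx
      linarith
    refine h2.trans ?_
    rw [sum_add_distrib, ← mul_sum, sum_const, nsmul_eq_mul]
    have h3 := interval_sum x y hy hyx
    have h4 : (((oddPrimes ⌊x⌋₊).filter (fun p => p ∉ oddPrimes ⌊y⌋₊)).card : ℝ) ≤ x := by
      refine le_trans ?_ hcard
      exact_mod_cast card_filter_le _ _
    have h5 := mul_le_mul_of_nonneg_left h3 hT0
    have h6 := mul_le_mul_of_nonneg_right h4 hx0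
    nlinarith
  have h2 : ∑ t ∈ range T,
      (((oddPrimes ⌊x⌋₊).filter (fun p : ℕ => (p : ℤ) ^ 4 ∣ (t : ℤ) ^ 2 - 4 * N)).card : ℝ) ≤
      2 * T + 2 * x := by
    simp only [card_filter_ind]
    rw [sum_comm]
    have h3 : ∑ p ∈ oddPrimes ⌊x⌋₊, ∑ t ∈ range T, ind ((p : ℤ) ^ 4 ∣ (t : ℤ) ^ 2 - 4 * N) ≤
        ∑ p ∈ oddPrimes ⌊x⌋₊, (2 * T * (1 / (p : ℝ) ^ 2) + 2) := by
      apply sum_le_sum
      intro p hp
      obtain ⟨hp2, hpp, -⟩ := mem_oddPrimes.1 hp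
      exact cnt4_upper N hN p hpp hp2 T
    refine h3.trans ?_
    rw [sum_add_distrib, ← mul_sum, sum_const, nsmul_eq_mul]
    have h4 : ∑ p ∈ oddPrimes ⌊x⌋₊, 1 / (p : ℝ) ^ 2 ≤ 1 := by
      have h5 : ∑ p ∈ oddPrimes ⌊x⌋₊, 1 / (p : ℝ) ^ 2 ≤
          ∑ k ∈ Finset.Icc 2 ⌊x⌋₊, 1 / (k : ℝ) ^ 2 := by
        apply sum_le_sum_of_subset_of_nonneg
        · intro p hp
          obtain ⟨-, hpp, hpx⟩ := mem_oddPrimes.1 hp
          exact mem_Icc.2 ⟨hpp.two_le, hpx⟩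
        · intro k _ _; positivity
      have h6 := sum_inv_sq ⌊x⌋₊ (Nat.le_floor (by push_cast; linarith))
      have h7 : (0 : ℝ) ≤ 1 / (⌊x⌋₊ : ℝ) := by positivity
      linarith
    have h5 := mul_le_mul_of_nonneg_left h4 (show (0 : ℝ) ≤ 2 * T by positivity)
    nlinarith
  linarith

end Pool.Agent.Lib.MP_d470cf_nt.EK
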