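import Pool.Agent.Lib.MP_d470cf_nt.EK.Taylor
import Pool.Agent.Lib.MP_d470cf_nt.Loc.Local

set_option autoImplicit false

open Finset Filter Topology Classical

namespace Pool.Agent.Lib.MP_d470cf_nt.EK

open Pool.Agent.Lib.MP_d470cf_nt Pool.Agent.Lib.MP_d470cf_nt.Loc

theorem sum_periodic_bound (f : ℕ → ℝ) (m : ℕ) (hm : 0 < m) (hf : Function.Periodic f m)
    (h0 : ∀ t, 0 ≤ f t) (h1 : ∀ t, f t ≤ 1) (T : ℕ) :
    |(∑ t ∈ range T, f t) - T * ((∑ t ∈ range m, f t) / m)| ≤ m := by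
  have hmR : (0 : ℝ) < m := by exact_mod_cast hm
  obtain ⟨S, hS⟩ : ∃ S : ℝ, S = ∑ t ∈ range m, f t := ⟨_, rfl⟩
  have hS0 : 0 ≤ S := by rw [hS]; exact sum_nonneg (fun t _ => h0 t)
  have hS1 : S ≤ m := by
    rw [hS]
    calc ∑ t ∈ range m, f t ≤ ∑ _t ∈ range m, (1 : ℝ) := sum_le_sum (fun t _ => h1 t)
      _ = m := by simp
  rw [← hS]
  obtain ⟨q, r, hr, hT⟩ : ∃ q r : ℕ, r < m ∧ T = m * q + r :=
    ⟨T / m, T % m, Nat.mod_lt _ hm, (Nat.div_add_mod T m).symm⟩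
  rw [hT, sum_range_add, sum_mul_range f m hf q, ← hS]
  obtain ⟨R, hR⟩ : ∃ R : ℝ, R = ∑ x ∈ range r, f (m * q + x) := ⟨_, rfl⟩
  rw [← hR]
  have hR0 : 0 ≤ R := by rw [hR]; exact sum_nonneg (fun t _ => h0 _)
  have hR1 : R ≤ r := by
    rw [hR]
    calc ∑ x ∈ range r, f (m * q + x) ≤ ∑ _x ∈ range r, (1 : ℝ) := sum_le_sum (fun t _ => h1 _)
      _ = r := by simp
  have hrm : (r : ℝ) ≤ m := by exact_mod_cast hr.le
  have hSm0 : 0 ≤ S / m := by positivity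
  have hSm1 : S / m ≤ 1 := by rw [div_le_one hmR]; exact hS1
  have e : (q : ℝ) * S + R - ((m * q + r : ℕ) : ℝ) * (S / m) = R - r * (S / m) := by
    push_cast
    field_simp
    ring
  rw [e, abs_le]
  have hr0 : (0 : ℝ) ≤ r := Nat.cast_nonneg r
  constructor
  · nlinarith
  · nlinarith

/-- the product of the indicators -/
noncomputable def fD (N : ℤ) (D : Finset ℕ) (t : ℕ) : ℝ := ∏ p ∈ D, ind (ACond N p t)

theorem fD_nonneg (N : ℤ) (D : Finset ℕ) (t : ℕ) : 0 ≤ fD N D t :=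
  Finset.prod_nonneg (fun _ _ => ind_nonneg _)

theorem fD_le_one (N : ℤ) (D : Finset ℕ) (t : ℕ) : fD N D t ≤ 1 :=
  Finset.prod_le_one (fun _ _ => ind_nonneg _) (fun _ _ => ind_le_one _)

theorem fD_eq (N : ℤ) (D : Finset ℕ) (t : ℕ) : fD N D t = ind (∀ p ∈ D, ACond N p t) := by
  unfold fD
  by_cases h : ∀ p ∈ D, ACond N p t
  · rw [Finset.prod_eq_one (fun p hp => by unfold ind; rw [if_pos (h p hp)])]
    unfold ind; rw [if_pos h]
  · push Not at h
    obtain ⟨p, hp, hpn⟩ := h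
    rw [Finset.prod_eq_zero hp (by unfold ind; rw [if_neg hpn])]
    unfold ind
    rw [if_neg (fun h => hpn (h p hp))]

theorem sum_ACond (N : ℤ) (p : ℕ) (hp : p.Prime) :
    ∑ t ∈ range (p ^ 2), ind (ACond N p t) = nu N p := by
  rw [← ACond_count N p hp, Nat.count_eq_card_filter_range, card_filter]
  push_cast
  apply sum_congr rfl
  intro x _
  unfold ind
  split_ifs <;> rfl

theorem fD_period (N : ℤ) (D : Finset ℕ) (hD : ∀ p ∈ D, p.Prime) :
    Function.Periodic (fD N D) (∏ p ∈ D, p ^ 2) ∧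
      ∑ t ∈ range (∏ p ∈ D, p ^ 2), fD N D t = ∏ p ∈ D, (nu N p : ℝ) := by
  induction D using Finset.induction_on with
  | empty =>
    constructor
    · intro t; simp [fD]
    · simp [fD]
  | insert p D hp ih =>
    obtain ⟨ih1, ih2⟩ := ih (fun q hq => hD q (mem_insert_of_mem hq))
    have hpp := hD p (mem_insert_self p D)
    have hper : Function.Periodic (fun t => ind (ACond N p t)) (p ^ 2) := by
      intro t
      have := ACond_periodic N p hpp t
      simp only [this]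
    have hfun : fD N (insert p D) = fun t => ind (ACond N p t) * fD N D t := by
      funext t
      unfold fD
      rw [prod_insert hp]
    have hcop : Nat.Coprime (p ^ 2) (∏ q ∈ D, q ^ 2) := by
      apply Nat.Coprime.prod_right
      intro q hq
      have hq' := hD q (mem_insert_of_mem hq)
      exact Nat.Coprime.pow 2 2 ((Nat.coprime_primes hpp hq').2 (by rintro rfl; exact hp hq))
    have hpos : 0 < ∏ q ∈ D, q ^ 2 :=
      Finset.prod_pos (fun q hq => pow_pos (hD q (mem_insert_of_mem hq)).pos 2)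
    rw [prod_insert hp, prod_insert hp, hfun]
    constructor
    · intro t
      have e1 : ind (ACond N p (t + p ^ 2 * ∏ q ∈ D, q ^ 2)) = ind (ACond N p t) := by
        have := hper.nat_mul (∏ q ∈ D, q ^ 2) t
        rw [Nat.cast_id] at this
        rw [mul_comm (p ^ 2)]; exact this
      have e2 : fD N D (t + p ^ 2 * ∏ q ∈ D, q ^ 2) = fD N D t := by
        have := ih1.nat_mul (p ^ 2) t
        rwa [Nat.cast_id] at this
      simp only [e1, e2]
    · rw [sum_crt (fun t => ind (ACond N p t)) (fD N D) _ _ (pow_pos hpp.pos 2) hpos hcop hper ih1,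
        ih2, sum_ACond N p hpp]

/-- the local probability -/
noncomputable def dl (N : ℤ) (p : ℕ) : ℝ := (nu N p : ℝ) / (p : ℝ) ^ 2

theorem dl_nonneg (N : ℤ) (p : ℕ) : 0 ≤ dl N p := by unfold dl; positivity

theorem dl_le (N : ℤ) (p : ℕ) (hp : p.Prime) : dl N p ≤ 1 / p := by
  unfold dl
  have hp0 : (0 : ℝ) < p := by exact_mod_cast hp.pos
  have h : (nu N p : ℝ) ≤ p := by exact_mod_cast nu_le N p
  rw [div_le_div_iff₀ (by positivity) hp0]
  nlinarith

theorem fD_count (N : ℤ) (D : Finset ℕ) (hD : ∀ p ∈ D, p.Prime) (P : ℕ) (hP : ∀ p ∈ D, p ≤ P)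
    (T : ℕ) : |(∑ t ∈ range T, fD N D t) - T * ∏ p ∈ D, dl N p| ≤ (P : ℝ) ^ (2 * D.card) := by
  obtain ⟨h1, h2⟩ := fD_period N D hD
  have hpos : 0 < ∏ q ∈ D, q ^ 2 := Finset.prod_pos (fun q hq => pow_pos (hD q hq).pos 2)
  have h3 := sum_periodic_bound (fD N D) _ hpos h1 (fD_nonneg N D) (fD_le_one N D) T
  rw [h2] at h3
  have e : (∏ p ∈ D, (nu N p : ℝ)) / ((∏ q ∈ D, q ^ 2 : ℕ) : ℝ) = ∏ p ∈ D, dl N p := by
    unfold dl
    rw [Finset.prod_div_distrib]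
    push_cast
    rfl
  rw [e] at h3
  refine h3.trans ?_
  have h4 : ∏ q ∈ D, q ^ 2 ≤ ∏ _q ∈ D, P ^ 2 :=
    Finset.prod_le_prod' (fun q hq => Nat.pow_le_pow_left (hP q hq) 2)
  rw [Finset.prod_const, ← pow_mul] at h4
  exact_mod_cast h4

/-- number of primes of `S` satisfying the condition -/
noncomputable def aS (N : ℤ) (S : Finset ℕ) (t : ℕ) : ℕ := (S.filter (fun p => ACond N p t)).card

theorem choose_eq (N : ℤ) (S : Finset ℕ) (t j : ℕ) :
    ((aS N S t).choose j : ℝ) = ∑ D ∈ S.powersetCard j, fD N D t := by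
  unfold aS
  rw [← Finset.card_powersetCard]
  have h1 : (S.filter (fun p => ACond N p t)).powersetCard j =
      (S.powersetCard j).filter (fun D => ∀ p ∈ D, ACond N p t) := by
    ext D
    rw [mem_powersetCard, mem_filter, mem_powersetCard]
    constructor
    · rintro ⟨h1, h2⟩
      exact ⟨⟨h1.trans (filter_subset _ _), h2⟩, fun p hp => (mem_filter.1 (h1 hp)).2⟩
    · rintro ⟨⟨h1, h2⟩, h3⟩
      exact ⟨fun p hp => mem_filter.2 ⟨h1 hp, h3 p hp⟩, h2⟩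
  rw [h1, card_filter]
  push_cast
  apply sum_congr rfl
  intro D _
  rw [fD_eq]
  unfold ind
  split_ifs <;> rfl

/-- elementary symmetric functions of the local probabilities -/
noncomputable def Bj (N : ℤ) (S : Finset ℕ) (j : ℕ) : ℝ := ∑ D ∈ S.powersetCard j, ∏ p ∈ D, dl N p

theorem Bj_nonneg (N : ℤ) (S : Finset ℕ) (j : ℕ) : 0 ≤ Bj N S j :=
  sum_nonneg (fun _ _ => prod_nonneg (fun _ _ => dl_nonneg _ _))

theorem moment_bound (N : ℤ) (S : Finset ℕ) (hS : ∀ p ∈ S, p.Prime) (P : ℕ)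
    (hP : ∀ p ∈ S, p ≤ P) (T j : ℕ) :
    |(∑ t ∈ range T, ((aS N S t).choose j : ℝ)) - T * Bj N S j| ≤ (P : ℝ) ^ (3 * j) := by
  simp only [choose_eq]
  rw [sum_comm]
  unfold Bj
  rw [mul_sum, ← sum_sub_distrib]
  refine (abs_sum_le_sum_abs _ _).trans ?_
  have h1 : ∑ D ∈ S.powersetCard j, |(∑ t ∈ range T, fD N D t) - T * ∏ p ∈ D, dl N p| ≤
      ∑ _D ∈ S.powersetCard j, (P : ℝ) ^ (2 * j) := by
    apply sum_le_sum
    intro D hD
    obtain ⟨h1, h2⟩ := mem_powersetCard.1 hD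
    have := fD_count N D (fun p hp => hS p (h1 hp)) P (fun p hp => hP p (h1 hp)) T
    rwa [h2] at this
  refine h1.trans ?_
  rw [sum_const, card_powersetCard, nsmul_eq_mul]
  have h2 : S.card ≤ P := by
    have h3 : S ⊆ Icc 1 P := fun p hp => mem_Icc.2 ⟨(hS p hp).one_lt.le, hP p hp⟩
    simpa using card_le_card h3
  have h4 : S.card.choose j ≤ P ^ j :=
    (Nat.choose_le_pow _ _).trans (Nat.pow_le_pow_left h2 j)
  have h5 : ((S.card.choose j : ℕ) : ℝ) ≤ (P : ℝ) ^ j := by exact_mod_cast h4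
  calc ((S.card.choose j : ℕ) : ℝ) * (P : ℝ) ^ (2 * j) ≤ (P : ℝ) ^ j * (P : ℝ) ^ (2 * j) :=
        mul_le_mul_of_nonneg_right h5 (by positivity)
    _ = (P : ℝ) ^ (3 * j) := by rw [← pow_add]; congr 1; ring

theorem prod_expand (N : ℤ) (S : Finset ℕ) (z : ℂ) (M : ℕ) (hM : S.card + 1 ≤ M) :
    ∏ p ∈ S, (1 + z * dl N p) = ∑ j ∈ range M, z ^ j * Bj N S j := by
  rw [Finset.prod_one_add, Finset.sum_powerset]
  have h1 : ∀ j, ∑ t ∈ S.powersetCard j, ∏ i ∈ t, (z * (dl N i : ℂ)) = z ^ j * Bj N S j := by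
    intro j
    unfold Bj
    push_cast
    rw [mul_sum]
    apply sum_congr rfl
    intro D hD
    rw [prod_mul_distrib, prod_const, (mem_powersetCard.1 hD).2]
  simp only [h1]
  apply Finset.sum_subset (range_subset_range.2 hM)
  intro j _ hj
  rw [mem_range, not_lt] at hj
  have : Bj N S j = 0 := by
    unfold Bj
    rw [powersetCard_eq_empty.2 (by omega), sum_empty]
  rw [this]; simp

theorem sum_Bj (N : ℤ) (S : Finset ℕ) (M : ℕ) (hM : S.card + 1 ≤ M) :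
    ∑ j ∈ range M, Bj N S j ≤ Real.exp (∑ p ∈ S, dl N p) := by
  have h := prod_expand N S 1 M hM
  simp only [one_pow, one_mul] at h
  have h' : (∏ p ∈ S, (1 + dl N p) : ℝ) = ∑ j ∈ range M, Bj N S j := by
    exact_mod_cast h
  rw [← h', Real.exp_sum]
  apply Finset.prod_le_prod
  · intro p _; have := dl_nonneg N p; linarith
  · intro p _; have := Real.add_one_le_exp (dl N p); linarith

theorem main_compare (N : ℤ) (S : Finset ℕ) (hS : ∀ p ∈ S, p.Prime) (P : ℕ) (hP1 : 1 ≤ P)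
    (hP : ∀ p ∈ S, p ≤ P) (T : ℕ) (hT : 0 < T) (m : ℕ) (z : ℂ) (hz : ‖z‖ ≤ 1)
    (hz1 : ‖1 + z‖ ≤ 1) :
    ‖(∑ t ∈ range T, (1 + z) ^ (aS N S t)) / (T : ℂ) - ∏ p ∈ S, (1 + z * dl N p)‖ ≤
      2 * ‖z‖ ^ m * Real.exp (∑ p ∈ S, dl N p) + (m + 1) * (P : ℝ) ^ (3 * m) / T := by
  have hTR : (0 : ℝ) < T := by exact_mod_cast hT
  have hTC : (T : ℂ) ≠ 0 := by exact_mod_cast hT.ne'
  obtain ⟨E, hE⟩ : ∃ E : ℝ, E = Real.exp (∑ p ∈ S, dl N p) := ⟨_, rfl⟩
  obtain ⟨M, hM⟩ : ∃ M, M = m + (S.card + 1) := ⟨_, rfl⟩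
  have hsB := sum_Bj N S M (by omega)
  rw [← hE] at hsB ⊢
  have hP1R : (1 : ℝ) ≤ P := by exact_mod_cast hP1
  -- main pieces
  have hBm : Bj N S m ≤ E := by
    refine le_trans ?_ hsB
    exact Finset.single_le_sum (f := fun j => Bj N S j) (fun j _ => Bj_nonneg N S j)
      (mem_range.2 (by omega))
  -- R1
  have r1 : ‖(∑ t ∈ range T, (1 + z) ^ (aS N S t)) -
      ∑ t ∈ range T, ∑ j ∈ range m, ((aS N S t).choose j : ℂ) * z ^ j‖ ≤
      ‖z‖ ^ m * (T * E + (P : ℝ) ^ (3 * m)) := by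
    rw [← sum_sub_distrib]
    refine (norm_sum_le _ _).trans ?_
    have h1 : ∑ t ∈ range T, ‖(1 + z) ^ (aS N S t) -
        ∑ j ∈ range m, ((aS N S t).choose j : ℂ) * z ^ j‖ ≤
        ∑ t ∈ range T, ((aS N S t).choose m : ℝ) * ‖z‖ ^ m :=
      sum_le_sum (fun t _ => taylor_bound z hz1 _ m)
    refine h1.trans ?_
    rw [← sum_mul, mul_comm]
    apply mul_le_mul_of_nonneg_left _ (by positivity)
    have h2 := (abs_le.1 (moment_bound N S hS P hP T m)).2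
    have h3 : (T : ℝ) * Bj N S m ≤ T * E := mul_le_mul_of_nonneg_left hBm hTR.le
    linarith
  -- R2
  have r2 : ‖(∑ t ∈ range T, ∑ j ∈ range m, ((aS N S t).choose j : ℂ) * z ^ j) -
      T * ∑ j ∈ range m, z ^ j * (Bj N S j : ℂ)‖ ≤ m * (P : ℝ) ^ (3 * m) := by
    rw [sum_comm, mul_sum, ← sum_sub_distrib]
    refine (norm_sum_le _ _).trans ?_
    have h1 : ∑ j ∈ range m, ‖(∑ t ∈ range T, ((aS N S t).choose j : ℂ) * z ^ j) -
        T * (z ^ j * (Bj N S j : ℂ))‖ ≤ ∑ _j ∈ range m, (P : ℝ) ^ (3 * m) := by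
      apply sum_le_sum
      intro j hj
      have e : (∑ t ∈ range T, ((aS N S t).choose j : ℂ) * z ^ j) -
        T * (z ^ j * (Bj N S j : ℂ)) =
        z ^ j * (((∑ t ∈ range T, ((aS N S t).choose j : ℝ)) - T * Bj N S j : ℝ) : ℂ) := by
        push_cast
        rw [← sum_mul]
        ring
      rw [e, norm_mul, norm_pow, Complex.norm_real, Real.norm_eq_abs]
      have h2 := moment_bound N S hS P hP T j
      have h3 : (P : ℝ) ^ (3 * j) ≤ (P : ℝ) ^ (3 * m) :=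
        pow_le_pow_right₀ hP1R (by have := mem_range.1 hj; omega)
      calc ‖z‖ ^ j * |(∑ t ∈ range T, ((aS N S t).choose j : ℝ)) - T * Bj N S j|
          ≤ 1 * (P : ℝ) ^ (3 * m) :=
            mul_le_mul (pow_le_one₀ (norm_nonneg _) hz) (h2.trans h3) (abs_nonneg _) zero_le_one
        _ = _ := one_mul _
    refine h1.trans (le_of_eq ?_)
    rw [sum_const, card_range, nsmul_eq_mul]
  -- R3
  have r3 : ‖(∑ j ∈ range m, z ^ j * (Bj N S j : ℂ)) - ∏ p ∈ S, (1 + z * dl N p)‖ ≤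
      ‖z‖ ^ m * E := by
    rw [prod_expand N S z M (by omega), hM, sum_range_add, sub_add_cancel_left, norm_neg]
    refine (norm_sum_le _ _).trans ?_
    have h1 : ∑ i ∈ range (S.card + 1), ‖z ^ (m + i) * (Bj N S (m + i) : ℂ)‖ ≤
        ∑ i ∈ range (S.card + 1), ‖z‖ ^ m * Bj N S (m + i) := by
      apply sum_le_sum
      intro i _
      rw [norm_mul, norm_pow, Complex.norm_real, Real.norm_eq_abs, abs_of_nonneg (Bj_nonneg _ _ _)]
      apply mul_le_mul_of_nonneg_right _ (Bj_nonneg _ _ _)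
      exact pow_le_pow_of_le_one (norm_nonneg _) hz (by omega)
    refine h1.trans ?_
    rw [← mul_sum]
    apply mul_le_mul_of_nonneg_left _ (by positivity)
    refine le_trans ?_ hsB
    rw [hM, sum_range_add (fun j => Bj N S j) m (S.card + 1)]
    have : 0 ≤ ∑ x ∈ range m, Bj N S x := sum_nonneg (fun j _ => Bj_nonneg N S j)
    linarith
  -- combine
  have e : (∑ t ∈ range T, (1 + z) ^ (aS N S t)) / (T : ℂ) - ∏ p ∈ S, (1 + z * dl N p) =
      (((∑ t ∈ range T, (1 + z) ^ (aS N S t)) -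
      ∑ t ∈ range T, ∑ j ∈ range m, ((aS N S t).choose j : ℂ) * z ^ j) +
      ((∑ t ∈ range T, ∑ j ∈ range m, ((aS N S t).choose j : ℂ) * z ^ j) -
      T * ∑ j ∈ range m, z ^ j * (Bj N S j : ℂ))) / T +
      ((∑ j ∈ range m, z ^ j * (Bj N S j : ℂ)) - ∏ p ∈ S, (1 + z * dl N p)) := by
    field_simp
    ring
  rw [e]
  refine (norm_add_le _ _).trans ?_
  rw [norm_div, Complex.norm_natCast]
  have h1 : ‖((∑ t ∈ range T, (1 + z) ^ (aS N S t)) -
      ∑ t ∈ range T, ∑ j ∈ range m, ((aS N S t).choose j : ℂ) * z ^ j) +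
      ((∑ t ∈ range T, ∑ j ∈ range m, ((aS N S t).choose j : ℂ) * z ^ j) -
      T * ∑ j ∈ range m, z ^ j * (Bj N S j : ℂ))‖ / T ≤
      (‖z‖ ^ m * (T * E + (P : ℝ) ^ (3 * m)) + m * (P : ℝ) ^ (3 * m)) / T :=
    div_le_div_of_nonneg_right ((norm_add_le _ _).trans (add_le_add r1 r2)) hTR.le
  have h2 : (‖z‖ ^ m * (T * E + (P : ℝ) ^ (3 * m)) + m * (P : ℝ) ^ (3 * m)) / T ≤
      ‖z‖ ^ m * E + (m + 1) * (P : ℝ) ^ (3 * m) / T := by
    have e1 : (‖z‖ ^ m * (T * E + (P : ℝ) ^ (3 * m)) + m * (P : ℝ) ^ (3 * m)) / T =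
      ‖z‖ ^ m * E + (m + ‖z‖ ^ m) * (P : ℝ) ^ (3 * m) / T := by
      field_simp
      ring
    rw [e1]
    have h3 : ‖z‖ ^ m ≤ 1 := pow_le_one₀ (norm_nonneg _) hz
    have h4 : (m + ‖z‖ ^ m) * (P : ℝ) ^ (3 * m) / T ≤ (m + 1) * (P : ℝ) ^ (3 * m) / T := by
      apply div_le_div_of_nonneg_right _ hTR.le
      apply mul_le_mul_of_nonneg_right _ (by positivity)
      linarith
    linarith
  have h5 : 2 * ‖z‖ ^ m * E = ‖z‖ ^ m * E + ‖z‖ ^ m * E := by ring
  rw [h5]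
  linarith

end Pool.Agent.Lib.MP_d470cf_nt.EK
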