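import Mathlib

set_option autoImplicit false

open Finset Filter Topology

namespace Pool.Agent.Lib.MP_d470cf_nt.EK

/-- Truncated binomial expansion of `(1 + z) ^ n` with remainder. -/
theorem taylor_bound (z : ℂ) (hz : ‖1 + z‖ ≤ 1) (n : ℕ) : ∀ m : ℕ,
    ‖(1 + z) ^ n - ∑ j ∈ range m, (n.choose j : ℂ) * z ^ j‖ ≤ (n.choose m : ℝ) * ‖z‖ ^ m := by
  induction n with
  | zero =>
    intro m
    rcases Nat.eq_zero_or_pos m with h | h
    · subst h; simp
    · have e : ∑ j ∈ range m, (Nat.choose 0 j : ℂ) * z ^ j = 1 := by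
        rw [Finset.sum_eq_single 0]
        · simp
        · intro b _ hb
          rw [Nat.choose_eq_zero_of_lt (Nat.pos_of_ne_zero hb)]; simp
        · intro h0
          exact absurd (mem_range.2 h) h0
      rw [e]
      simp only [pow_zero, sub_self, norm_zero]
      positivity
  | succ n ih =>
    intro m
    rcases Nat.eq_zero_or_pos m with h | h
    · subst h
      simp only [range_zero, sum_empty, sub_zero, Nat.choose_zero_right, Nat.cast_one, pow_zero,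
        mul_one]
      rw [norm_pow]
      exact pow_le_one₀ (norm_nonneg _) hz
    · obtain ⟨k, rfl⟩ : ∃ k, m = k + 1 := ⟨m - 1, by omega⟩
      have h1 := ih (k + 1)
      have h2 := ih k
      have e : (1 + z) ^ (n + 1) - ∑ j ∈ range (k + 1), ((n + 1).choose j : ℂ) * z ^ j =
          ((1 + z) ^ n - ∑ j ∈ range (k + 1), (n.choose j : ℂ) * z ^ j) +
            z * ((1 + z) ^ n - ∑ j ∈ range k, (n.choose j : ℂ) * z ^ j) := by
        have e1 : ∑ j ∈ range (k + 1), ((n + 1).choose j : ℂ) * z ^ j =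
            ∑ j ∈ range (k + 1), (n.choose j : ℂ) * z ^ j +
              z * ∑ j ∈ range k, (n.choose j : ℂ) * z ^ j := by
          rw [Finset.sum_range_succ' (fun j => ((n + 1).choose j : ℂ) * z ^ j),
            Finset.sum_range_succ' (fun j => (n.choose j : ℂ) * z ^ j) k]
          have e2 : ∀ j, ((n + 1).choose (j + 1) : ℂ) * z ^ (j + 1) =
              (n.choose (j + 1) : ℂ) * z ^ (j + 1) + z * ((n.choose j : ℂ) * z ^ j) := by
            intro j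
            rw [Nat.choose_succ_succ]
            push_cast
            ring
          simp only [e2]
          rw [Finset.sum_add_distrib, ← Finset.mul_sum]
          simp
          ring
        rw [e1]
        ring
      rw [e]
      calc ‖((1 + z) ^ n - ∑ j ∈ range (k + 1), (n.choose j : ℂ) * z ^ j) +
            z * ((1 + z) ^ n - ∑ j ∈ range k, (n.choose j : ℂ) * z ^ j)‖
          ≤ ‖(1 + z) ^ n - ∑ j ∈ range (k + 1), (n.choose j : ℂ) * z ^ j‖ +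
            ‖z * ((1 + z) ^ n - ∑ j ∈ range k, (n.choose j : ℂ) * z ^ j)‖ := norm_add_le _ _
        _ ≤ (n.choose (k + 1) : ℝ) * ‖z‖ ^ (k + 1) + ‖z‖ * ((n.choose k : ℝ) * ‖z‖ ^ k) := by
          rw [norm_mul]
          exact add_le_add h1 (mul_le_mul_of_nonneg_left h2 (norm_nonneg z))
        _ = ((n + 1).choose (k + 1) : ℝ) * ‖z‖ ^ (k + 1) := by
          rw [Nat.choose_succ_succ]
          push_cast
          ring

theorem exp_second (w : ℂ) (hw : ‖w‖ ≤ 1) :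
    ‖Complex.exp w - 1 - w - w ^ 2 / 2‖ ≤ ‖w‖ ^ 3 := by
  have h := Complex.exp_bound hw (show 0 < 3 by norm_num)
  have e : ∑ m ∈ range 3, w ^ m / (m.factorial : ℂ) = 1 + w + w ^ 2 / 2 := by
    simp [Finset.sum_range_succ, Nat.factorial]
  rw [e] at h
  have e2 : Complex.exp w - 1 - w - w ^ 2 / 2 = Complex.exp w - (1 + w + w ^ 2 / 2) := by ring
  rw [e2]
  refine h.trans ?_
  have h3 : ((Nat.succ 3 : ℕ) : ℝ) * (((Nat.factorial 3 : ℕ) : ℝ) * (3 : ℕ))⁻¹ ≤ 1 := by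
    norm_num [Nat.factorial]
  calc ‖w‖ ^ 3 * (((Nat.succ 3 : ℕ) : ℝ) * (((Nat.factorial 3 : ℕ) : ℝ) * (3 : ℕ))⁻¹)
      ≤ ‖w‖ ^ 3 * 1 := mul_le_mul_of_nonneg_left h3 (by positivity)
    _ = ‖w‖ ^ 3 := mul_one _

/-- the point `z = exp (i θ / √L) - 1` -/
noncomputable def zt (θ L : ℝ) : ℂ := Complex.exp (((θ / Real.sqrt L : ℝ) : ℂ) * Complex.I) - 1

theorem one_add_zt (θ L : ℝ) :
    1 + zt θ L = Complex.exp (((θ / Real.sqrt L : ℝ) : ℂ) * Complex.I) := by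
  unfold zt; ring

theorem norm_one_add_zt (θ L : ℝ) : ‖1 + zt θ L‖ = 1 := by
  rw [one_add_zt]; exact Complex.norm_exp_ofReal_mul_I _

theorem norm_zt_le (θ L : ℝ) : ‖zt θ L‖ ≤ |θ / Real.sqrt L| := by
  unfold zt
  rw [mul_comm]
  have := Real.norm_exp_I_mul_ofReal_sub_one_le (x := θ / Real.sqrt L)
  rwa [Real.norm_eq_abs] at this

/-- Multiplicative comparison of a product with an exponential. -/
theorem prod_exp (S : Finset ℕ) (δ : ℕ → ℝ) (hδ0 : ∀ p ∈ S, 0 ≤ δ p) (hδ1 : ∀ p ∈ S, δ p ≤ 1)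
    (z : ℂ) (hz : ‖z‖ ≤ 1) :
    ‖∏ p ∈ S, (1 + z * δ p) - Complex.exp (z * ((∑ p ∈ S, δ p : ℝ) : ℂ))‖ ≤
      ‖Complex.exp (z * ((∑ p ∈ S, δ p : ℝ) : ℂ))‖ *
        (Real.exp (6 * ‖z‖ ^ 2 * ∑ p ∈ S, (δ p) ^ 2) - 1) := by
  have hexp : Complex.exp (z * ((∑ p ∈ S, δ p : ℝ) : ℂ)) = ∏ p ∈ S, Complex.exp (z * δ p) := by
    rw [← Complex.exp_sum]
    congr 1
    push_cast
    rw [Finset.mul_sum]
  -- factor
  obtain ⟨x, hx⟩ : ∃ x : ℕ → ℂ, x = fun p => (1 + z * δ p) * Complex.exp (-(z * δ p)) - 1 :=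
    ⟨_, rfl⟩
  have hfac : ∀ p, (1 + z * δ p : ℂ) = Complex.exp (z * δ p) * (1 + x p) := by
    intro p
    rw [hx]
    have : Complex.exp (z * δ p) * Complex.exp (-(z * δ p)) = 1 := by
      rw [← Complex.exp_add]; simp
    linear_combination (-(1 + z * (δ p : ℂ))) * this
  have hprod : ∏ p ∈ S, (1 + z * δ p : ℂ) =
      Complex.exp (z * ((∑ p ∈ S, δ p : ℝ) : ℂ)) * ∏ p ∈ S, (1 + x p) := by
    rw [hexp, ← Finset.prod_mul_distrib]
    exact Finset.prod_congr rfl (fun p _ => hfac p)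
  have hxb : ∀ p ∈ S, ‖x p‖ ≤ 6 * ‖z‖ ^ 2 * (δ p) ^ 2 := by
    intro p hp
    obtain ⟨w, hw⟩ : ∃ w : ℂ, w = z * δ p := ⟨_, rfl⟩
    have hwn : ‖w‖ = ‖z‖ * δ p := by
      rw [hw, norm_mul, Complex.norm_real, Real.norm_eq_abs, abs_of_nonneg (hδ0 p hp)]
    have hw1 : ‖w‖ ≤ 1 := by
      rw [hwn]; exact mul_le_one₀ hz (hδ0 p hp) (hδ1 p hp)
    have hw1' : ‖-w‖ ≤ 1 := by rw [norm_neg]; exact hw1
    have h1 := Complex.norm_exp_sub_one_sub_id_le hw1'
    have e : x p = (1 + w) * (Complex.exp (-w) - 1 - -w) - w ^ 2 := by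
      rw [hx, hw]; ring
    rw [e]
    calc ‖(1 + w) * (Complex.exp (-w) - 1 - -w) - w ^ 2‖
        ≤ ‖(1 + w) * (Complex.exp (-w) - 1 - -w)‖ + ‖w ^ 2‖ := norm_sub_le _ _
      _ ≤ 2 * ‖w‖ ^ 2 + ‖w‖ ^ 2 := by
        rw [norm_mul, norm_pow]
        have h2 : ‖1 + w‖ ≤ 2 := (norm_add_le _ _).trans (by rw [norm_one]; linarith)
        rw [norm_neg] at h1
        have h3 := mul_le_mul h2 h1 (norm_nonneg _) (by norm_num : (0 : ℝ) ≤ 2)
        linarith
      _ ≤ 6 * ‖z‖ ^ 2 * (δ p) ^ 2 := by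
        rw [hwn]
        nlinarith [mul_nonneg (sq_nonneg ‖z‖) (sq_nonneg (δ p))]
  rw [hprod]
  have e : Complex.exp (z * ((∑ p ∈ S, δ p : ℝ) : ℂ)) * ∏ p ∈ S, (1 + x p) -
      Complex.exp (z * ((∑ p ∈ S, δ p : ℝ) : ℂ)) =
      Complex.exp (z * ((∑ p ∈ S, δ p : ℝ) : ℂ)) * (∏ p ∈ S, (1 + x p) - 1) := by ring
  rw [e, norm_mul]
  apply mul_le_mul_of_nonneg_left _ (norm_nonneg _)
  refine (Finset.norm_prod_one_add_sub_one_le S x).trans ?_
  apply sub_le_sub_right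
  apply Real.exp_le_exp.2
  rw [Finset.mul_sum]
  exact Finset.sum_le_sum hxb

end Pool.Agent.Lib.MP_d470cf_nt.EK
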