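import Pool.Agent.Lib.MP_d470cf_nt.EK.Char
import Pool.Agent.Lib.MP_d470cf_nt.Loc.Count

set_option autoImplicit false

open NumberField Module NumberField.Units IntermediateField Finset Classical Filter Topology

namespace Pool.Agent.Lib.MP_d470cf_nt.EK

open Pool.Agent.Lib.MP_d470cf_nt Pool.Agent.Lib.MP_d470cf_nt.Loc

/-- the fields of regulator at most `Y` as a finset -/
noncomputable def FF (Y : ℝ) : Finset RealQuadraticField := (FY_finite Y).toFinset

theorem mem_FF (Y : ℝ) (K : RealQuadraticField) : K ∈ FF Y ↔ K ∈ FY Y :=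
  (FY_finite Y).mem_toFinset

/-- range of traces -/
noncomputable def TT (Y : ℝ) : ℕ := ⌊Real.exp Y⌋₊ + 2

theorem sum_norm (N : ℤ) (Y : ℝ) (F : ℕ → ℂ) :
    ∑ K ∈ (FF Y).filter (fun K => nm K = N), F (tr K).toNat =
      ∑ t ∈ (range (TT Y)).filter (fun t => t ∈ SN N Y), F t := by
  apply Finset.sum_bij (fun K _ => (tr K).toNat)
  · intro K hK
    obtain ⟨h1, h2⟩ := mem_filter.1 hK
    rw [mem_FF] at h1
    exact mem_filter.2 ⟨mem_range.2 (tr_lt K Y h1), ⟨K, h1, h2, rfl⟩⟩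
  · intro K hK K' hK' h
    exact tr_nm_injective K K' h ((mem_filter.1 hK).2.trans (mem_filter.1 hK').2.symm)
  · intro t ht
    obtain ⟨-, ⟨K, h1, h2, h3⟩⟩ := mem_filter.1 ht
    exact ⟨K, mem_filter.2 ⟨(mem_FF Y K).2 h1, h2⟩, h3⟩
  · intro K _; rfl

theorem sum_split (Y : ℝ) (F : ℤ → ℕ → ℂ) :
    ∑ K ∈ FF Y, F (nm K) (tr K).toNat =
      ∑ t ∈ (range (TT Y)).filter (fun t => t ∈ SN 1 Y), F 1 t +
      ∑ t ∈ (range (TT Y)).filter (fun t => t ∈ SN (-1) Y), F (-1) t := by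
  rw [← sum_norm 1 Y (F 1), ← sum_norm (-1) Y (F (-1))]
  rw [← Finset.sum_filter_add_sum_filter_not (FF Y) (fun K => nm K = 1)]
  congr 1
  · apply sum_congr rfl
    intro K hK
    rw [(mem_filter.1 hK).2]
  · have e : (FF Y).filter (fun K => ¬ nm K = 1) = (FF Y).filter (fun K => nm K = -1) := by
      apply filter_congr
      intro K _
      rcases (fu_spec K).2.1 with h | h <;> rw [h] <;> decide
    rw [e]
    apply sum_congr rfl
    intro K hK
    rw [(mem_filter.1 hK).2]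

theorem TT_tendsto : Tendsto (fun Y : ℝ => (TT Y : ℝ) / Real.exp Y) atTop (𝓝 1) := by
  have e1 : Tendsto (fun x : ℝ => (⌊x⌋₊ : ℝ) / x) atTop (𝓝 1) := tendsto_nat_floor_div_atTop
  have e2 := e1.comp Real.tendsto_exp_atTop
  have e3 : Tendsto (fun Y : ℝ => 2 * Real.exp (-Y)) atTop (𝓝 (2 * 0)) :=
    Real.tendsto_exp_neg_atTop_nhds_zero.const_mul 2
  have e4 := e2.add e3
  rw [mul_zero, add_zero] at e4
  refine e4.congr (fun Y => ?_)
  simp only [Function.comp]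
  rw [Real.exp_neg]
  unfold TT
  push_cast
  field_simp

theorem exp_le_TT (Y : ℝ) : Real.exp Y ≤ TT Y := by
  have := Nat.lt_floor_add_one (Real.exp Y)
  unfold TT
  push_cast
  linarith

theorem TT_pos (Y : ℝ) : (0 : ℝ) < TT Y := lt_of_lt_of_le (Real.exp_pos Y) (exp_le_TT Y)

theorem missed_TT (N : ℤ) (hN : N = 1 ∨ N = -1) :
    Tendsto (fun Y : ℝ => (((range (TT Y)).filter (fun t => t ∉ SN N Y)).card : ℝ) / TT Y) atTop
      (𝓝 0) := by
  apply squeeze_zero' _ _ missed_tendsto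
  · filter_upwards with Y
    positivity
  · filter_upwards [eventually_ge_atTop 0] with Y hY
    have h1 := missed_bound N hN Y hY
    have h2 : (((range (TT Y)).filter (fun t => t ∉ SN N Y)).card : ℝ) ≤
      (Real.exp (Y / 2) + 2) * 2 * (3 * Y + 1) + 5 := h1
    calc (((range (TT Y)).filter (fun t => t ∉ SN N Y)).card : ℝ) / TT Y
        ≤ ((Real.exp (Y / 2) + 2) * 2 * (3 * Y + 1) + 5) / TT Y :=
          div_le_div_of_nonneg_right h2 (TT_pos Y).le
      _ ≤ ((Real.exp (Y / 2) + 2) * 2 * (3 * Y + 1) + 5) / Real.exp Y :=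
          div_le_div_of_nonneg_left (by positivity) (Real.exp_pos Y) (exp_le_TT Y)

theorem filter_tendsto (N : ℤ) (hN : N = 1 ∨ N = -1) (F : ℝ → ℕ → ℂ) (hF : ∀ Y t, ‖F Y t‖ ≤ 1)
    (c : ℂ) (h : Tendsto (fun Y : ℝ => (∑ t ∈ range (TT Y), F Y t) / (TT Y : ℂ)) atTop (𝓝 c)) :
    Tendsto (fun Y : ℝ => (∑ t ∈ (range (TT Y)).filter (fun t => t ∈ SN N Y), F Y t) /
      (TT Y : ℂ)) atTop (𝓝 c) := by
  have h2 : Tendsto (fun Y : ℝ => (∑ t ∈ (range (TT Y)).filter (fun t => t ∉ SN N Y), F Y t) /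
      (TT Y : ℂ)) atTop (𝓝 0) := by
    apply squeeze_zero_norm _ (missed_TT N hN)
    intro Y
    rw [norm_div, Complex.norm_natCast]
    apply div_le_div_of_nonneg_right _ (TT_pos Y).le
    refine (norm_sum_le _ _).trans ?_
    calc ∑ t ∈ (range (TT Y)).filter (fun t => t ∉ SN N Y), ‖F Y t‖
        ≤ ∑ _t ∈ (range (TT Y)).filter (fun t => t ∉ SN N Y), (1 : ℝ) :=
          sum_le_sum (fun t _ => hF Y t)
      _ = _ := by simp
  have h3 := h.sub h2
  rw [sub_zero] at h3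
  refine h3.congr (fun Y => ?_)
  rw [← sub_div]
  congr 1
  rw [← Finset.sum_filter_add_sum_filter_not (range (TT Y)) (fun t => t ∈ SN N Y)]
  ring

theorem transfer (F : ℝ → ℤ → ℕ → ℂ) (hF : ∀ Y N t, ‖F Y N t‖ ≤ 1) (c : ℂ)
    (h : ∀ N : ℤ, (N = 1 ∨ N = -1) →
      Tendsto (fun Y : ℝ => (∑ t ∈ range (TT Y), F Y N t) / (TT Y : ℂ)) atTop (𝓝 c)) :
    Tendsto (fun Y : ℝ => (∑ K ∈ FF Y, F Y (nm K) (tr K).toNat) / ((FF Y).card : ℂ)) atTop
      (𝓝 c) := by
  have key : ∀ (G : ℝ → ℤ → ℕ → ℂ) (_ : ∀ Y N t, ‖G Y N t‖ ≤ 1) (d : ℂ)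
      (_ : ∀ N : ℤ, (N = 1 ∨ N = -1) →
      Tendsto (fun Y : ℝ => (∑ t ∈ range (TT Y), G Y N t) / (TT Y : ℂ)) atTop (𝓝 d)),
      Tendsto (fun Y : ℝ => (∑ K ∈ FF Y, G Y (nm K) (tr K).toNat) / (TT Y : ℂ)) atTop
        (𝓝 (d + d)) := by
    intro G hG d hd
    have h1 := filter_tendsto 1 (Or.inl rfl) (fun Y => G Y 1) (fun Y t => hG Y 1 t) d
      (hd 1 (Or.inl rfl))
    have h2 := filter_tendsto (-1) (Or.inr rfl) (fun Y => G Y (-1)) (fun Y t => hG Y (-1) t) d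
      (hd (-1) (Or.inr rfl))
    refine (h1.add h2).congr (fun Y => ?_)
    rw [← add_div, sum_split]
  have h1 := key F hF c h
  have h2 := key (fun _ _ _ => 1) (fun _ _ _ => by simp) 1 (fun N _ => by
    apply tendsto_const_nhds.congr
    intro Y
    have : (TT Y : ℂ) ≠ 0 := by exact_mod_cast (TT_pos Y).ne'
    simp [this])
  have h3 := h1.div h2 (by norm_num)
  have e : (c + c) / (1 + 1) = c := by
    rw [← two_mul]
    norm_num
  rw [e] at h3
  refine h3.congr (fun Y => ?_)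
  have : (TT Y : ℂ) ≠ 0 := by exact_mod_cast (TT_pos Y).ne'
  simp only [Pi.div_apply, sum_const, nsmul_eq_mul, mul_one]
  rw [div_div_div_cancel_right₀ this]

/-- the characteristic function over the fields -/
theorem fields_char (θ : ℝ) (P : ℝ → ℝ) (hP : Tendsto P atTop atTop)
    (hP2 : ∀ᶠ Y in atTop, P Y ≤ Real.exp (Y / 2)) :
    Tendsto (fun Y : ℝ => (∑ K ∈ FF Y,
      ee θ (Real.log (Real.log (P Y))) (wS (nm K) (P Y) (tr K).toNat)) / ((FF Y).card : ℂ)) atTop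
      (𝓝 ((Real.exp (-(θ ^ 2 / 2)) : ℝ) : ℂ)) := by
  apply transfer (fun Y N t => ee θ (Real.log (Real.log (P Y))) (wS N (P Y) t))
    (fun Y N t => (norm_ee _ _ _).le)
  intro N hN
  rw [Metric.tendsto_nhds]
  intro ε hε
  have hlim : Tendsto (fun Y : ℝ => Real.log (Real.log (P Y))) atTop atTop :=
    Real.tendsto_log_atTop.comp (Real.tendsto_log_atTop.comp hP)
  filter_upwards [hlim.eventually (char_eventually θ (ε / 2) (by positivity)), hP2,
    hP.eventually_ge_atTop 2] with Y hY hY4 hY2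
  have hx : P Y = Real.exp (Real.exp (Real.log (Real.log (P Y)))) := by
    rw [Real.exp_log (Real.log_pos (by linarith)), Real.exp_log (by linarith)]
  have hT : (P Y) ^ 2 ≤ TT Y := by
    have h1 : (P Y) ^ 2 ≤ Real.exp (Y / 2) ^ 2 := pow_le_pow_left₀ (by linarith) hY4 2
    have h2 : Real.exp (Y / 2) ^ 2 = Real.exp Y := by
      rw [← Real.exp_nat_mul]; congr 1; push_cast; ring
    rw [h2] at h1
    exact h1.trans (exp_le_TT Y)
  have := hY N hN (P Y) hx (TT Y) hT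
  rw [dist_eq_norm]
  exact lt_of_le_of_lt this (by linarith)

/-- the number of Wall-Sun-Sun primes up to `x` through the local conditions -/
theorem wss_count_eq (K : RealQuadraticField) (x : ℝ) (hx : 0 ≤ x) :
    ({p : ℕ | (p : ℝ) ≤ x ∧ IsWSS K.1 p}).ncard = wS (nm K) x (tr K).toNat := by
  unfold wS
  rw [← Set.ncard_coe_finset]
  congr 1
  ext p
  have ht : (((tr K).toNat : ℕ) : ℤ) = tr K := Int.toNat_of_nonneg (by have := one_le_tr K; omega)
  rw [mem_coe, mem_filter, mem_oddPrimes, ht]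
  constructor
  · rintro ⟨h1, h2⟩
    exact ⟨⟨h2.2.1, h2.1, (Nat.le_floor_iff hx).2 h1⟩, (isWSS_iff_LC K p h2.1 h2.2.1).1 h2⟩
  · rintro ⟨⟨h1, h2, h3⟩, h4⟩
    exact ⟨(Nat.le_floor_iff hx).1 h3, (isWSS_iff_LC K p h2 h1).2 h4⟩

end Pool.Agent.Lib.MP_d470cf_nt.EK
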